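import Mathlib

namespace Pool.Agent.H92.Vojta

open NumberField Module Polynomial

/-- The square of a norm bound: `2 y` lies in the different when `y ^ 2` is in the base. -/
lemma two_mul_mem_different (F L : Type*) [Field F] [NumberField F] [Field L] [NumberField L]
    [Algebra F L] (a : 𝓞 F) (y : 𝓞 L) (hy : y ^ 2 = algebraMap (𝓞 F) (𝓞 L) a)
    (htop : Algebra.adjoin F {(y : L)} = ⊤) :
    2 * y ∈ differentIdeal (𝓞 F) (𝓞 L) := by
  have h1 := aeval_derivative_mem_differentIdeal (A := 𝓞 F) (K := F) (L := L) (B := 𝓞 L) y htop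
  have hint : IsIntegral (𝓞 F) y := Algebra.IsIntegral.isIntegral y
  have hdvd : minpoly (𝓞 F) y ∣ (X ^ 2 - C a : (𝓞 F)[X]) := by
    apply minpoly.isIntegrallyClosed_dvd hint
    simp [hy]
  obtain ⟨Q, hQ⟩ := hdvd
  have h2 : derivative (X ^ 2 - C a : (𝓞 F)[X]) = derivative (minpoly (𝓞 F) y) * Q
      + minpoly (𝓞 F) y * derivative Q := by
    rw [hQ, derivative_mul]
  have h3 := congrArg (aeval y) h2
  simp only [derivative_sub, derivative_X_pow, derivative_C, map_add, map_mul,
    minpoly.aeval, zero_mul, add_zero, sub_zero] at h3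
  have h4 : (2 : 𝓞 L) * y = (aeval y) (derivative (minpoly (𝓞 F) y)) * (aeval y) Q := by
    rw [← h3]
    have : (algebraMap (𝓞 F) (𝓞 L)) 2 = 2 := map_ofNat _ 2
    simp [this]
  rw [h4]
  exact Ideal.mul_mem_right _ _ h1

lemma abs_discr_pos (F : Type*) [Field F] [NumberField F] : 0 < |(discr F : ℝ)| := by
  have := discr_ne_zero F
  positivity

lemma log_discr_nonneg (F : Type*) [Field F] [NumberField F] :
    0 ≤ Real.log |(discr F : ℝ)| := by
  apply Real.log_nonneg
  have := Int.one_le_abs (discr_ne_zero F)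
  exact_mod_cast this

lemma quad_step (F L : Type*) [Field F] [NumberField F] [Field L] [NumberField L]
    [Algebra F L] (a : 𝓞 F) (ha : a ≠ 0) (y : L) (hy : y ^ 2 = algebraMap F L (a : F))
    (htop : Algebra.adjoin F {y} = ⊤) :
    finrank F L ≤ 2 ∧
    Real.log |(discr L : ℝ)| / finrank F L ≤
      Real.log |(discr F : ℝ)| + Real.log |(Algebra.norm ℚ (4 * (a : F)) : ℝ)| / 2 := by
  have hyint : IsIntegral ℤ y := by
    have h0 : IsIntegral ℤ (a : F) := a.isIntegral_coe
    have h1 : IsIntegral ℤ (y ^ 2) := by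
      rw [hy]; exact h0.map (algebraMap F L).toIntAlgHom
    exact IsIntegral.of_pow (by norm_num) h1
  set y0 : 𝓞 L := ⟨y, hyint⟩ with hy0
  have hy0' : y0 ^ 2 = algebraMap (𝓞 F) (𝓞 L) a := by
    apply RingOfIntegers.ext
    have e1 : ((y0 ^ 2 : 𝓞 L) : L) = y ^ 2 := rfl
    rw [e1, hy]
    rfl
  have hmem := two_mul_mem_different F L a y0 hy0' htop
  have hrank : finrank F L ≤ 2 := by
    have hyi : IsIntegral F y := Algebra.IsIntegral.isIntegral y
    have h1 : finrank F L = (minpoly F y).natDegree := by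
      have h2 : IntermediateField.adjoin F {y} = ⊤ := by
        rw [eq_top_iff, ← IntermediateField.toSubalgebra_le_toSubalgebra]
        rw [IntermediateField.top_toSubalgebra, ← htop]
        exact IntermediateField.algebra_adjoin_le_adjoin F {y}
      rw [← IntermediateField.adjoin.finrank hyi, h2, IntermediateField.finrank_top']
    rw [h1]
    have h3 : minpoly F y ∣ (X ^ 2 - C (a : F)) := by
      apply minpoly.dvd
      simp [hy]
    have h4 := natDegree_le_of_dvd h3 (X_pow_sub_C_ne_zero (by norm_num) _)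
    simpa using h4
  refine ⟨hrank, ?_⟩
  have hfr : 0 < finrank F L := finrank_pos
  have hfr' : (0 : ℝ) < finrank F L := by exact_mod_cast hfr
  -- the tower formula
  have htow := natAbs_discr_eq_absNorm_differentIdeal_mul_natAbs_discr_pow F (𝓞 F) L (𝓞 L)
  have hle : Ideal.span {2 * y0} ≤ differentIdeal (𝓞 F) (𝓞 L) := by
    rw [Ideal.span_singleton_le_iff_mem]; exact hmem
  have hdvd := Ideal.absNorm_dvd_absNorm_of_le hle
  rw [Ideal.absNorm_span_singleton] at hdvd
  have hy0ne : y0 ≠ 0 := by
    intro h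
    rw [h] at hy0'
    simp only [ne_eq, OfNat.ofNat_ne_zero, not_false_eq_true, zero_pow] at hy0'
    have := (FaithfulSMul.algebraMap_injective (𝓞 F) (𝓞 L)) (by rw [← hy0', map_zero] : algebraMap (𝓞 F) (𝓞 L) a = algebraMap (𝓞 F) (𝓞 L) 0)
    exact ha this
  have h2y : (2 * y0 : 𝓞 L) ≠ 0 := mul_ne_zero two_ne_zero hy0ne
  have hN0 : Algebra.norm ℤ (2 * y0) ≠ 0 := by
    rw [Ne, Algebra.norm_eq_zero_iff]; exact h2y
  have hle2 : Ideal.absNorm (differentIdeal (𝓞 F) (𝓞 L)) ≤ (Algebra.norm ℤ (2 * y0)).natAbs :=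
    Nat.le_of_dvd (by positivity) hdvd
  have hsq : ((Algebra.norm ℤ (2 * y0) : ℤ) : ℚ) ^ 2 = (Algebra.norm ℚ (4 * (a : F))) ^ finrank F L := by
    rw [Algebra.coe_norm_int, ← map_pow]
    have h1 : ((2 * y0 : 𝓞 L) : L) ^ 2 = algebraMap F L (4 * (a : F)) := by
      have e1 : ((2 * y0 : 𝓞 L) : L) = 2 * y := by
        have : ((2 : 𝓞 L) : L) = 2 := rfl
        calc ((2 * y0 : 𝓞 L) : L) = ((2 : 𝓞 L) : L) * (y0 : L) := rfl
          _ = 2 * y := by rw [this, show (y0 : L) = y from rfl]
      have e2 : (algebraMap F L) 4 = 4 := map_ofNat _ 4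
      rw [e1, map_mul, mul_pow, ← hy, e2]; norm_num
    rw [h1, ← Algebra.norm_norm (R := ℚ) (S := F) (A := L), Algebra.norm_algebraMap, map_pow]
  have hdiffpos : 0 < Ideal.absNorm (differentIdeal (𝓞 F) (𝓞 L)) := by
    rcases Nat.eq_zero_or_pos (Ideal.absNorm (differentIdeal (𝓞 F) (𝓞 L))) with h | h
    · rw [h, zero_mul, Int.natAbs_eq_zero] at htow
      exact absurd htow (discr_ne_zero L)
    · exact h
  have hlog : Real.log |(discr L : ℝ)| = Real.log (Ideal.absNorm (differentIdeal (𝓞 F) (𝓞 L)))
      + finrank F L * Real.log |(discr F : ℝ)| := by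
    have h1 : |(discr L : ℝ)| = ((discr L).natAbs : ℝ) := by
      rw [Nat.cast_natAbs]; push_cast; rfl
    have h2 : |(discr F : ℝ)| = ((discr F).natAbs : ℝ) := by
      rw [Nat.cast_natAbs]; push_cast; rfl
    rw [h1, h2, htow]
    push_cast
    rw [Real.log_mul, Real.log_pow]
    · exact_mod_cast hdiffpos.ne'
    · apply pow_ne_zero
      rw [← h2]; exact (abs_discr_pos F).ne'
  have hlog2 : Real.log (Ideal.absNorm (differentIdeal (𝓞 F) (𝓞 L))) ≤
      finrank F L * Real.log |(Algebra.norm ℚ (4 * (a : F)) : ℝ)| / 2 := by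
    have h1 : Real.log (Ideal.absNorm (differentIdeal (𝓞 F) (𝓞 L))) ≤
        Real.log |(Algebra.norm ℤ (2 * y0) : ℝ)| := by
      apply Real.log_le_log (by exact_mod_cast hdiffpos)
      calc (Ideal.absNorm (differentIdeal (𝓞 F) (𝓞 L)) : ℝ)
          ≤ ((Algebra.norm ℤ (2 * y0)).natAbs : ℝ) := by exact_mod_cast hle2
        _ = |(Algebra.norm ℤ (2 * y0) : ℝ)| := by
          rw [Nat.cast_natAbs]; push_cast; rfl
    have h2 : 2 * Real.log |(Algebra.norm ℤ (2 * y0) : ℝ)| =
        finrank F L * Real.log |(Algebra.norm ℚ (4 * (a : F)) : ℝ)| := by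
      have h3 := congrArg (fun z : ℚ => Real.log |(z : ℝ)|) hsq
      simp only [Rat.cast_pow, abs_pow, Real.log_pow, Rat.cast_intCast] at h3
      exact_mod_cast h3
    linarith
  rw [hlog, add_div, mul_div_cancel_left₀ _ hfr'.ne']
  have h5 : Real.log (Ideal.absNorm (differentIdeal (𝓞 F) (𝓞 L))) / finrank F L ≤
      Real.log |(Algebra.norm ℚ (4 * (a : F)) : ℝ)| / 2 := by
    rw [div_le_iff₀ hfr']; linarith
  linarith

lemma log_norm_four (K : Type*) [Field K] [NumberField K] (a : 𝓞 K) (ha : a ≠ 0) :
    Real.log |(Algebra.norm ℚ (4 * (a : K)) : ℝ)| =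
      finrank ℚ K * Real.log 4 + Real.log |(Algebra.norm ℚ (a : K) : ℝ)| := by
  have ha' : (a : K) ≠ 0 := by
    intro h; exact ha (RingOfIntegers.ext (by simpa using h))
  rw [map_mul]
  have h4 : Algebra.norm ℚ (4 : K) = 4 ^ finrank ℚ K := by
    have := Algebra.norm_algebraMap (R := ℚ) (S := K) (4 : ℚ)
    rwa [map_ofNat] at this
  rw [h4]
  push_cast
  rw [abs_mul, Real.log_mul]
  · rw [abs_of_nonneg (by positivity), Real.log_pow]
  · positivity
  · rw [abs_ne_zero]
    have : Algebra.norm ℚ (a : K) ≠ 0 := by rw [Ne, Algebra.norm_eq_zero_iff]; exact ha'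
    exact_mod_cast this

lemma tower {K : Type*} [Field K] [NumberField K] : ∀ (n : ℕ) (L : Type*) [Field L] [NumberField L]
    [Algebra K L] (a : Fin n → 𝓞 K) (_ : ∀ i, a i ≠ 0) (y : Fin n → L)
    (_ : ∀ i, y i ^ 2 = algebraMap K L (a i : K))
    (_ : IntermediateField.adjoin K (Set.range y) = ⊤),
    finrank K L ≤ 2 ^ n ∧
    Real.log |(discr L : ℝ)| / finrank K L ≤
      Real.log |(discr K : ℝ)| + ∑ i, Real.log |(Algebra.norm ℚ (4 * (a i : K)) : ℝ)| / 2 := by
  intro n
  induction n with
  | zero =>
    intro L _ _ _ a ha y hy htop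
    have h1 : Set.range y = ∅ := by simp
    rw [h1, IntermediateField.adjoin_empty] at htop
    have hfr : finrank K L = 1 := by
      rw [← IntermediateField.finrank_top', ← htop]
      exact IntermediateField.finrank_bot
    have h2 : Function.Surjective (algebraMap K L) := by
      intro z
      have : z ∈ (⊤ : IntermediateField K L) := trivial
      rw [← htop, IntermediateField.mem_bot] at this
      exact this
    have e : K ≃+* L := RingEquiv.ofBijective (algebraMap K L) ⟨(algebraMap K L).injective, h2⟩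
    rw [hfr, ← discr_eq_discr_of_ringEquiv K e]
    simp
  | succ n ih =>
    intro L _ _ _ a ha y hy htop
    set E : IntermediateField K L := IntermediateField.adjoin K (Set.range (fun i : Fin n => y i.castSucc)) with hE
    have hmem : ∀ i : Fin n, y i.castSucc ∈ E := fun i =>
      IntermediateField.subset_adjoin K _ ⟨i, rfl⟩
    have hmem' : ∀ i : Fin n, IsAlgebraic K (y i.castSucc) := fun i => Algebra.IsAlgebraic.isAlgebraic _
    -- the part generated by the first elements
    let y' : Fin n → E := fun i => ⟨y i.castSucc, hmem i⟩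
    have hy' : ∀ i, y' i ^ 2 = algebraMap K E (a i.castSucc : K) := by
      intro i
      apply Subtype.ext
      have := hy i.castSucc
      simpa [y'] using this
    have htop' : IntermediateField.adjoin K (Set.range y') = ⊤ := by
      have h1 : IntermediateField.lift (IntermediateField.adjoin K (Set.range y')) = E := by
        rw [IntermediateField.lift_adjoin, ← Set.range_comp]
        rfl
      apply IntermediateField.lift_injective E
      rw [h1, IntermediateField.lift_top]
    obtain ⟨ih1, ih2⟩ := ih E (fun i => a i.castSucc) (fun i => ha _) y' hy' htop'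
    -- the last step
    have htopE : Algebra.adjoin E {y (Fin.last n)} = ⊤ := by
      have hz : IsAlgebraic E (y (Fin.last n)) := Algebra.IsAlgebraic.isAlgebraic _
      rw [← IntermediateField.adjoin_simple_toSubalgebra_of_isAlgebraic hz]
      have h2 : IntermediateField.adjoin E {y (Fin.last n)} = ⊤ := by
        apply IntermediateField.restrictScalars_injective K
        rw [IntermediateField.restrictScalars_adjoin, IntermediateField.restrictScalars_top]
        rw [eq_top_iff, ← htop, IntermediateField.adjoin_le_iff]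
        rintro _ ⟨i, rfl⟩
        refine Fin.lastCases ?_ (fun j => ?_) i
        · exact IntermediateField.subset_adjoin K _ (Or.inr rfl)
        · exact IntermediateField.subset_adjoin K _ (Or.inl (hmem j))
      rw [h2, IntermediateField.top_toSubalgebra]
    set aE : 𝓞 E := algebraMap (𝓞 K) (𝓞 E) (a (Fin.last n)) with haE
    have haEcoe : (aE : E) = algebraMap K E (a (Fin.last n) : K) := rfl
    have haE0 : aE ≠ 0 := by
      intro h
      apply ha (Fin.last n)
      apply FaithfulSMul.algebraMap_injective (𝓞 K) (𝓞 E)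
      rw [map_zero]; exact h
    have hyE : y (Fin.last n) ^ 2 = algebraMap E L (aE : E) := by
      rw [haEcoe, ← IsScalarTower.algebraMap_apply K E L]
      exact hy _
    obtain ⟨q1, q2⟩ := quad_step E L aE haE0 (y (Fin.last n)) hyE htopE
    have hmul : finrank K L = finrank K E * finrank E L := (finrank_mul_finrank K E L).symm
    have hKE : (0 : ℝ) < finrank K E := by exact_mod_cast (finrank_pos : 0 < finrank K E)
    have hEL : (0 : ℝ) < finrank E L := by exact_mod_cast (finrank_pos : 0 < finrank E L)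
    constructor
    · rw [hmul, pow_succ]
      exact Nat.mul_le_mul ih1 q1
    · have hN : Real.log |(Algebra.norm ℚ (4 * (aE : E)) : ℝ)| =
          finrank K E * Real.log |(Algebra.norm ℚ (4 * (a (Fin.last n) : K)) : ℝ)| := by
        have h4 : (4 : E) * (aE : E) = algebraMap K E (4 * (a (Fin.last n) : K)) := by
          rw [map_mul, haEcoe, map_ofNat]
        rw [h4, ← Algebra.norm_norm (R := ℚ) (S := K) (A := E), Algebra.norm_algebraMap, map_pow]
        push_cast
        rw [abs_pow, Real.log_pow]
      rw [hN] at q2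
      rw [hmul, Fin.sum_univ_castSucc]
      push_cast
      have h5 : Real.log |(discr L : ℝ)| / (finrank K E * finrank E L) =
          (Real.log |(discr L : ℝ)| / finrank E L) / finrank K E := by
        field_simp
      rw [h5]
      have h6 : (Real.log |(discr L : ℝ)| / finrank E L) / finrank K E ≤
          (Real.log |(discr E : ℝ)| + finrank K E *
            Real.log |(Algebra.norm ℚ (4 * (a (Fin.last n) : K)) : ℝ)| / 2) / finrank K E := by
        gcongr
      refine h6.trans ?_
      rw [add_div]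
      have h7 : (finrank K E * Real.log |(Algebra.norm ℚ (4 * (a (Fin.last n) : K)) : ℝ)| / 2)
          / finrank K E = Real.log |(Algebra.norm ℚ (4 * (a (Fin.last n) : K)) : ℝ)| / 2 := by
        field_simp
      rw [h7]
      linarith

end Pool.Agent.H92.Vojta
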