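import Mathlib

namespace Pool.Agent.H92.Vojta

open NumberField Module Height nonZeroDivisors

variable (K : Type*) [Field K] [NumberField K]

/-- Every element of a number field is a quotient of integers generating an ideal of bounded
norm. -/
lemma exists_rep : ∃ B : ℝ, 0 < B ∧ ∀ x : K, ∃ s t : 𝓞 K, t ≠ 0 ∧ x = (s : K) / (t : K) ∧
    (Ideal.absNorm (Ideal.span {s, t}) : ℝ) ≤ B := by
  classical
  -- a bound for the norms of representatives
  have hcl : ∀ c : ClassGroup (𝓞 K), ∃ I : (Ideal (𝓞 K))⁰, ClassGroup.mk0 I = c :=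
    fun c => ClassGroup.mk0_surjective c
  choose I hI using hcl
  have : Finite (ClassGroup (𝓞 K)) := inferInstance
  obtain ⟨M, hM⟩ := (Set.finite_range (fun c => Ideal.absNorm (I c : Ideal (𝓞 K)))).bddAbove
  refine ⟨M + 1, by positivity, fun x => ?_⟩
  obtain ⟨s0, t0, ht0, hx⟩ := IsFractionRing.div_surjective (A := 𝓞 K) x
  have ht0' : t0 ≠ 0 := nonZeroDivisors.ne_zero ht0
  have hJ : Ideal.span {s0, t0} ≠ ⊥ := by
    intro h
    rw [Ideal.span_eq_bot] at h
    exact ht0' (h t0 (by simp))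
  set J : (Ideal (𝓞 K))⁰ := ⟨Ideal.span {s0, t0}, mem_nonZeroDivisors_of_ne_zero hJ⟩ with hJdef
  have hcls : ClassGroup.mk0 J = ClassGroup.mk0 (I (ClassGroup.mk0 J)) := (hI _).symm
  set I0 := I (ClassGroup.mk0 J) with hI0
  obtain ⟨α, β, hα, hβ, hαβ⟩ := ClassGroup.mk0_eq_mk0_iff.mp hcls
  have hs : α * s0 ∈ Ideal.span {β} * (I0 : Ideal (𝓞 K)) := by
    rw [← hαβ]
    exact Ideal.mul_mem_mul (Ideal.mem_span_singleton_self _) (Ideal.subset_span (by simp))
  have ht : α * t0 ∈ Ideal.span {β} * (I0 : Ideal (𝓞 K)) := by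
    rw [← hαβ]
    exact Ideal.mul_mem_mul (Ideal.mem_span_singleton_self _) (Ideal.subset_span (by simp))
  rw [Ideal.mem_span_singleton_mul] at hs ht
  obtain ⟨s, hsI, hs⟩ := hs
  obtain ⟨t, htI, ht⟩ := ht
  have ht' : t ≠ 0 := by
    rintro rfl
    rw [mul_zero] at ht
    exact mul_ne_zero hα ht0' ht.symm
  refine ⟨s, t, ht', ?_, ?_⟩
  · rw [← hx]
    have h1 : (β : K) * s = α * s0 := by exact_mod_cast congrArg (algebraMap (𝓞 K) K) hs
    have h2 : (β : K) * t = α * t0 := by exact_mod_cast congrArg (algebraMap (𝓞 K) K) ht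
    have hβ' : (β : K) ≠ 0 := by exact_mod_cast hβ
    have hα' : (α : K) ≠ 0 := by exact_mod_cast hα
    have ht0K : (t0 : K) ≠ 0 := by exact_mod_cast ht0'
    have htK : (t : K) ≠ 0 := by exact_mod_cast ht'
    rw [div_eq_div_iff ht0K htK]
    apply mul_left_cancel₀ (mul_ne_zero hα' hβ')
    calc (α : K) * β * (s0 * t) = (α * s0) * (β * t) := by ring
      _ = (β * s) * (α * t0) := by rw [h1, h2]
      _ = _ := by ring
  · have hspan : Ideal.span {s, t} = (I0 : Ideal (𝓞 K)) := by
      have h1 : Ideal.span {β} * Ideal.span {s, t} = Ideal.span {β} * (I0 : Ideal (𝓞 K)) := by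
        rw [← hαβ, hJdef]
        simp only
        rw [Ideal.span_mul_span', Ideal.span_mul_span']
        congr 1
        simp only [Set.singleton_mul, Set.image_pair]
        rw [hs, ht]
      exact (Ideal.span_singleton_mul_right_inj hβ).mp h1
    rw [hspan]
    have := hM ⟨ClassGroup.mk0 J, rfl⟩
    have h3 : (Ideal.absNorm (I0 : Ideal (𝓞 K)) : ℝ) ≤ M := by exact_mod_cast this
    linarith

variable {K}

lemma prod_max_eq (s t : 𝓞 K) (ht : t ≠ 0) :
    ∏ w : InfinitePlace K, (max (w (s : K)) (w (t : K))) ^ w.mult =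
      mulHeight₁ ((s : K) / (t : K)) * Ideal.absNorm (Ideal.span {s, t}) := by
  have htK : (t : K) ≠ 0 := by exact_mod_cast ht
  have h1 : (![s, t] : Fin 2 → 𝓞 K) ≠ 0 := by
    intro h; exact ht (by simpa using congrFun h 1)
  have h2 := absNorm_mul_finprod_finitePlace_eq_one (K := K) h1
  have h3 : (![(s : K), (t : K)] : Fin 2 → K) ≠ 0 := by
    intro h; exact htK (by simpa using congrFun h 1)
  rw [mulHeight₁_div_eq_mulHeight, NumberField.mulHeight_eq h3]
  have hsup : ∀ f : Fin 2 → ℝ, (⨆ i, f i) = max (f 0) (f 1) := by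
    intro f
    apply le_antisymm
    · apply ciSup_le
      intro i
      fin_cases i
      · exact le_max_left _ _
      · exact le_max_right _ _
    · apply max_le
      · exact le_ciSup (Set.finite_range f).bddAbove 0
      · exact le_ciSup (Set.finite_range f).bddAbove 1
  have hinf : ∏ v : InfinitePlace K, (⨆ i, v (![(s : K), (t : K)] i)) ^ v.mult =
      ∏ w : InfinitePlace K, (max (w (s : K)) (w (t : K))) ^ w.mult := by
    apply Finset.prod_congr rfl
    intro v _
    rw [hsup]
    simp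
  have hfin : ∏ᶠ v : FinitePlace K, ⨆ i, v (![(s : K), (t : K)] i) =
      ∏ᶠ v : FinitePlace K, ⨆ i, v ((![s, t] : Fin 2 → 𝓞 K) i : K) := by
    apply finprod_congr
    intro v
    rw [hsup, hsup]
    simp
  have hrange : Set.range (![s, t] : Fin 2 → 𝓞 K) = {s, t} := by
    ext z; simp [eq_comm, or_comm]
  rw [hrange] at h2
  rw [hinf, hfin, mul_assoc, mul_comm (∏ᶠ v : FinitePlace K, _) _, h2, mul_one]

lemma one_le_mulHeight₁' (x : K) : 1 ≤ mulHeight₁ x := one_le_mulHeight₁ x

/-- Bound for the norm of a linear form at `s, t`. -/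
lemma norm_linear_le (e : 𝓞 K) : ∃ C : ℝ, 0 < C ∧ ∀ s t : 𝓞 K, t ≠ 0 →
    |(Algebra.norm ℚ ((s : K) - e * t) : ℝ)| ≤
      C * (mulHeight₁ ((s : K) / (t : K)) * Ideal.absNorm (Ideal.span {s, t})) := by
  refine ⟨∏ w : InfinitePlace K, (1 + w (e : K)) ^ w.mult, ?_, fun s t ht => ?_⟩
  · apply Finset.prod_pos
    intro w _
    have := apply_nonneg w (e : K)
    positivity
  · rw [← prod_max_eq s t ht, ← Finset.prod_mul_distrib]
    have h1 := InfinitePlace.prod_eq_abs_norm ((s : K) - e * t)
    rw [← Rat.cast_abs, ← h1]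
    apply Finset.prod_le_prod
    · intro w _; exact pow_nonneg (apply_nonneg _ _) _
    · intro w _
      rw [← mul_pow]
      apply pow_le_pow_left₀ (apply_nonneg _ _)
      have h2 : w ((s : K) - e * t) ≤ w (s : K) + w (e * t : K) := by
        have h := w.1.sub_le_add (s : K) (e * t)
        exact h
      have h3 : w ((e : K) * t) = w (e : K) * w (t : K) := map_mul _ _ _
      have h4 := le_max_left (w (s : K)) (w (t : K))
      have h5 := le_max_right (w (s : K)) (w (t : K))
      have h6 := apply_nonneg w (e : K)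
      nlinarith [mul_le_mul_of_nonneg_left h5 h6]

/-- Bound for the norm of a product of linear forms. -/
lemma log_norm_prod_le {ι : Type*} [Fintype ι] (e : ι → 𝓞 K) (B : ℝ) (hB : 0 < B) :
    ∃ C : ℝ, ∀ s t : 𝓞 K, t ≠ 0 →
      (Ideal.absNorm (Ideal.span {s, t}) : ℝ) ≤ B → (∀ i, s - e i * t ≠ 0) →
      Real.log |(Algebra.norm ℚ (((∏ i, (s - e i * t) : 𝓞 K)) : K) : ℝ)| ≤
        Fintype.card ι * logHeight₁ ((s : K) / (t : K)) + C := by
  choose C hC hCb using fun i => norm_linear_le (K := K) (e i)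
  refine ⟨∑ i, (Real.log (C i) + Real.log B), fun s t ht hst hne => ?_⟩
  have h0 : ∀ i, (Algebra.norm ℚ ((s : K) - e i * t) : ℚ) ≠ 0 := by
    intro i
    rw [Ne, Algebra.norm_eq_zero_iff]
    have := hne i
    intro h
    apply this
    apply RingOfIntegers.ext
    simpa using h
  have h1 : (((∏ i, (s - e i * t) : 𝓞 K)) : K) = ∏ i, ((s : K) - e i * t) := by
    simp
  rw [h1, map_prod]
  push_cast
  rw [Finset.abs_prod, Real.log_prod]
  · calc ∑ i, Real.log |(Algebra.norm ℚ ((s : K) - e i * t) : ℝ)|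
        ≤ ∑ i, (logHeight₁ ((s : K) / (t : K)) + (Real.log (C i) + Real.log B)) := by
          apply Finset.sum_le_sum
          intro i _
          have hH : 0 < mulHeight₁ ((s : K) / (t : K)) := mulHeight₁_pos _
          have hb : |(Algebra.norm ℚ ((s : K) - e i * t) : ℝ)| ≤
              C i * (mulHeight₁ ((s : K) / (t : K)) * B) := by
            refine (hCb i s t ht).trans ?_
            have := (hC i).le
            gcongr
          have hpos : 0 < |(Algebra.norm ℚ ((s : K) - e i * t) : ℝ)| := by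
            rw [abs_pos]; exact_mod_cast h0 i
          have := Real.log_le_log hpos hb
          rw [Real.log_mul (hC i).ne' (by positivity), Real.log_mul hH.ne' hB.ne'] at this
          rw [logHeight₁_eq_log_mulHeight₁]
          linarith
      _ = _ := by
          rw [Finset.sum_add_distrib]
          simp
  · intro i _
    rw [abs_ne_zero]
    exact_mod_cast h0 i

end Pool.Agent.H92.Vojta
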