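import Pool.Agent.H92.Vojta.Growth
import Pool.Agent.H92.Vojta.Rep
import Pool.Agent.H92.Vojta.Disc

namespace Pool.Agent.H92.Vojta

open NumberField Module Height IsDedekindDomain

section places
variable (K : Type*) [Field K] [NumberField K]

lemma exists_place_two : ∃ w : FinitePlace K, w.1 (2 : K) < 1 := by
  have h2 : ¬ IsUnit (2 : 𝓞 K) := by
    intro h
    have h1 := h.map (Algebra.norm ℤ (S := 𝓞 K))
    have h3 : Algebra.norm ℤ (2 : 𝓞 K) = 2 ^ finrank ℤ (𝓞 K) := by
      have := Algebra.norm_algebraMap (R := ℤ) (S := 𝓞 K) (2 : ℤ)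
      rwa [map_ofNat] at this
    rw [h3, RingOfIntegers.rank] at h1
    have hpos : finrank ℚ K ≠ 0 := (finrank_pos).ne'
    rw [isUnit_pow_iff hpos, Int.isUnit_iff] at h1
    omega
  obtain ⟨M, hM, hmem⟩ := exists_max_ideal_of_mem_nonunits h2
  have hbot : M ≠ ⊥ := by
    rintro rfl
    rw [Ideal.mem_bot] at hmem
    exact two_ne_zero hmem
  refine ⟨FinitePlace.mk ⟨M, hM.isPrime, hbot⟩, ?_⟩
  have := (FinitePlace.norm_lt_one_iff_mem (K := K) ⟨M, hM.isPrime, hbot⟩ (2 : 𝓞 K)).mpr hmem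
  have h4 : (FinitePlace.mk (K := K) ⟨M, hM.isPrime, hbot⟩) (2 : K) < 1 := by
    rw [FinitePlace.mk_apply]
    rwa [map_ofNat] at this
  exact h4

variable {K}

lemma place_na (w : FinitePlace K) : IsNonarchimedean w.1 := by
  intro x y
  exact FinitePlace.add_le w x y

lemma place_int_le (w : FinitePlace K) (a : 𝓞 K) : w.1 (a : K) ≤ 1 := by
  have h := FinitePlace.norm_le_one (K := K) w.maximalIdeal a
  rw [← FinitePlace.mk_apply, FinitePlace.mk_maximalIdeal] at h
  exact h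

lemma exists_int_of_places {x : K} (h : ∀ w : FinitePlace K, w.1 x ≤ 1) : ∃ a : 𝓞 K, (a : K) = x := by
  apply HeightOneSpectrum.mem_integers_of_valuation_le_one K x
  intro v
  have h1 := h (FinitePlace.mk v)
  have h2 : (FinitePlace.mk v) x ≤ 1 := h1
  rw [FinitePlace.mk_apply, FinitePlace.norm_embedding, HeightOneSpectrum.adicAbv_def] at h2
  by_contra hlt
  push Not at hlt
  have h3 := WithZeroMulInt.toNNReal_strictMono (HeightOneSpectrum.one_lt_absNorm_nnreal v) hlt
  rw [map_one] at h3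
  have h4 : (1 : ℝ) < (WithZeroMulInt.toNNReal (HeightOneSpectrum.absNorm_ne_zero v)
    (v.valuation K x) : ℝ) := by exact_mod_cast h3
  linarith

end places

/-- `F` takes values that are a square times a small integer at infinitely many points:
`F x = b ^ 2 * a` with `log |N a| + c log (1 + h(x)) ≤ 2 (g - 1) h(x) + C`. -/
def Good (K : Type*) [Field K] [NumberField K] (F : K → K) (g : ℕ) : Prop :=
  ∃ (S : Set K) (c C : ℝ), S.Infinite ∧ 0 < c ∧ ∀ x ∈ S, ∃ (a : 𝓞 K) (b : K), a ≠ 0 ∧ b ≠ 0 ∧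
    F x = b ^ 2 * (a : K) ∧
    Real.log |(Algebra.norm ℚ (a : K) : ℝ)| + c * Real.log (1 + logHeight₁ x) ≤
      2 * ((g : ℝ) - 1) * logHeight₁ x + C

section core
variable {K : Type*} [Field K] [NumberField K]

lemma U_infinite {A B Y0 x0 w0 : K} (v : AbsoluteValue K ℝ) (hna : IsNonarchimedean v)
    (h2 : v 2 < 1) (hA : v A ≤ 1) (hB : v B ≤ 1)
    (hY0 : Y0 ^ 2 = (1 / 4) ^ 3 + A * (1 / 4) + B) (hx0 : v x0 ≤ 1) (hw0 : v w0 ≤ 1)
    (hw0ne : w0 ≠ 0) : (Set.range (U A B Y0 x0 w0)).Infinite := by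
  have hp : 0 < v 2 := v.pos (by norm_num)
  have hθ : 1 < (v 2)⁻¹ := (one_lt_inv₀ hp).mpr h2
  have hwpos : 0 < v w0 := v.pos hw0ne
  obtain ⟨n0, hn0⟩ := pow_unbounded_of_one_lt (v 2 * v w0)⁻¹ hθ
  have hex : ∀ k : ℕ, v (U A B Y0 x0 w0 (n0 + k) - x0) = v 2 * v w0 * (v 2) ^ (n0 + k + 1) := by
    intro k
    apply U_exact v hna h2 hA hB hY0 hx0 hw0
    have h3 : ((v 2)⁻¹) ^ (3 * (n0 + k + 1)) = ((v 2)⁻¹) ^ (2 * (n0 + k + 1)) *
        ((v 2)⁻¹) ^ (n0 + k + 1) := by rw [← pow_add]; congr 1; ring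
    rw [h3]
    have h4 : (v 2 * v w0)⁻¹ < ((v 2)⁻¹) ^ (n0 + k + 1) :=
      hn0.trans_le (pow_le_pow_right₀ hθ.le (by omega))
    have h5 : 1 < v 2 * v w0 * ((v 2)⁻¹) ^ (n0 + k + 1) := by
      rwa [inv_lt_iff_one_lt_mul₀ (by positivity), mul_comm] at h4
    have h6 : 0 < ((v 2)⁻¹) ^ (2 * (n0 + k + 1)) := by positivity
    calc ((v 2)⁻¹) ^ (2 * (n0 + k + 1)) = ((v 2)⁻¹) ^ (2 * (n0 + k + 1)) * 1 := by ring
      _ < ((v 2)⁻¹) ^ (2 * (n0 + k + 1)) * (v 2 * v w0 * ((v 2)⁻¹) ^ (n0 + k + 1)) := by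
        gcongr
      _ = _ := by ring
  refine Set.infinite_of_injective_forall_mem (f := fun k : ℕ => U A B Y0 x0 w0 (n0 + k)) ?_
    (fun k => ⟨_, rfl⟩)
  intro k l hkl
  simp only at hkl
  have h3 := hex k
  have h4 := hex l
  rw [hkl, h4] at h3
  have h5 : (v 2) ^ (n0 + l + 1) = (v 2) ^ (n0 + k + 1) :=
    mul_left_cancel₀ (by positivity) h3
  have h6 := (pow_right_injective₀ hp h2.ne).eq_iff.mp h5
  omega

theorem core (m : ℕ) (e : Fin 3 → 𝓞 K) (e' : Fin (2 * m) → 𝓞 K) (j0 : Fin (2 * m))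
    (hsum : (e 0 : K) + e 1 + e 2 = 0) (hne : ∀ i, e' j0 ≠ e i) (w0 Y0 : K)
    (hw0 : w0 ^ 2 = ∏ i, ((e' j0 : K) - e i)) (hY0 : Y0 ^ 2 = ∏ i, ((1 / 4 : K) - e i)) :
    Good K (fun x => (∏ i, (x - e i)) * ∏ j, (x - e' j)) (m + 1) := by
  classical
  set A : K := e 0 * e 1 + e 0 * e 2 + e 1 * e 2 with hA
  set B : K := -(e 0 * e 1 * e 2) with hB
  set x0 : K := (e' j0 : K) with hx0
  have hcub : ∀ x : K, ∏ i, (x - e i) = x ^ 3 + A * x + B := by
    intro x
    rw [Fin.prod_univ_three, hA, hB]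
    linear_combination (-(x ^ 2)) * hsum
  have hw0' : w0 ^ 2 = x0 ^ 3 + A * x0 + B := by rw [hw0, hcub]
  have hY0' : Y0 ^ 2 = (1 / 4) ^ 3 + A * (1 / 4) + B := by rw [hY0, hcub]
  have hw0ne : w0 ≠ 0 := by
    intro h
    rw [h] at hw0
    have h1 : ∏ i, ((e' j0 : K) - e i) = 0 := by rw [← hw0]; simp
    rw [Finset.prod_eq_zero_iff] at h1
    obtain ⟨i, _, hi⟩ := h1
    apply hne i
    apply RingOfIntegers.ext
    exact sub_eq_zero.mp hi
  -- integral elements
  have hAint : ∃ a : 𝓞 K, (a : K) = A := ⟨e 0 * e 1 + e 0 * e 2 + e 1 * e 2, by simp [hA]⟩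
  have hBint : ∃ a : 𝓞 K, (a : K) = B := ⟨-(e 0 * e 1 * e 2), by simp [hB]⟩
  have hw0int : ∃ a : 𝓞 K, (a : K) = w0 := by
    have h1 : IsIntegral ℤ (w0 ^ 2) := by
      rw [hw0]
      apply IsIntegral.prod
      intro i _
      exact (e' j0).isIntegral_coe.sub (e i).isIntegral_coe
    exact ⟨⟨w0, IsIntegral.of_pow (by norm_num) h1⟩, rfl⟩
  have hA1 : ∀ w : FinitePlace K, w.1 A ≤ 1 := by
    intro w; obtain ⟨a, ha⟩ := hAint; rw [← ha]; exact place_int_le w a
  have hB1 : ∀ w : FinitePlace K, w.1 B ≤ 1 := by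
    intro w; obtain ⟨a, ha⟩ := hBint; rw [← ha]; exact place_int_le w a
  have hw01 : ∀ w : FinitePlace K, w.1 w0 ≤ 1 := by
    intro w; obtain ⟨a, ha⟩ := hw0int; rw [← ha]; exact place_int_le w a
  have hx01 : ∀ w : FinitePlace K, w.1 x0 ≤ 1 := fun w => place_int_le w _
  obtain ⟨v, hv⟩ := exists_place_two K
  have hcurve : ∀ n, W A B Y0 x0 w0 n ^ 2 = ∏ i, (U A B Y0 x0 w0 n - e i) := by
    intro n
    rw [hcub]
    exact UW_on_curve v.1 (place_na v) hv (hA1 v) (hB1 v) hY0' (hx01 v) hw0' n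
  have hsqc : ∀ n, (sq A B Y0 n).2 ^ 2 = (sq A B Y0 n).1 ^ 3 + A * (sq A B Y0 n).1 + B :=
    fun n => (sq_inv v.1 (place_na v) hv (hA1 v) (hB1 v) hY0' n).1
  obtain ⟨M, hM, hgrow⟩ := U_height A B Y0 x0 w0 hsqc
  obtain ⟨Bd, hBd, hrep⟩ := exists_rep K
  obtain ⟨C1, hC1⟩ := log_norm_prod_le (K := K) e' Bd hBd
  set F : K → K := fun x => (∏ i, (x - e i)) * ∏ j, (x - e' j) with hF
  set d : ℝ := (finrank ℚ K : ℝ) with hd
  have hdpos : 0 < d := by rw [hd]; exact_mod_cast (finrank_pos : 0 < finrank ℚ K)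
  set c : ℝ := d * Real.log 2 / Real.log 9 with hc
  have hlog2 : 0 < Real.log 2 := Real.log_pos (by norm_num)
  have hlog9 : 0 < Real.log 9 := Real.log_pos (by norm_num)
  have hcpos : 0 < c := by positivity
  refine ⟨{x | F x ≠ 0} ∩ Set.range (U A B Y0 x0 w0), c, C1 + c * Real.log M, ?_, hcpos, ?_⟩
  · -- infinite
    have hinf := U_infinite v.1 (place_na v) hv (hA1 v) (hB1 v) hY0' (hx01 v) (hw01 v) hw0ne
    have hfin : {x : K | F x = 0}.Finite := by
      have : {x : K | F x = 0} ⊆ (Set.range fun i => (e i : K)) ∪ (Set.range fun j => (e' j : K)) := by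
        intro x hx
        simp only [hF, Set.mem_ofPred_eq, mul_eq_zero, Finset.prod_eq_zero_iff] at hx
        rcases hx with ⟨i, _, hi⟩ | ⟨j, _, hj⟩
        · exact Or.inl ⟨i, (sub_eq_zero.mp hi).symm⟩
        · exact Or.inr ⟨j, (sub_eq_zero.mp hj).symm⟩
      exact ((Set.finite_range _).union (Set.finite_range _)).subset this
    have : {x | F x ≠ 0} ∩ Set.range (U A B Y0 x0 w0) =
        Set.range (U A B Y0 x0 w0) \ {x : K | F x = 0} := by
      ext x
      simp only [Set.mem_inter_iff, Set.mem_ofPred_eq, Set.mem_sdiff]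
      tauto
    rw [this]
    exact hinf.sdiff hfin
  · rintro x ⟨hxF, n, hn⟩
    obtain ⟨s, t, ht, hx, hst⟩ := hrep x
    have htK : (t : K) ≠ 0 := by exact_mod_cast ht
    -- factors are nonzero
    have hxF' : F x ≠ 0 := hxF
    simp only [hF] at hxF'
    have hP1 : ∏ i, (x - (e i : K)) ≠ 0 := left_ne_zero_of_mul hxF'
    have hP2 : ∏ j, (x - (e' j : K)) ≠ 0 := right_ne_zero_of_mul hxF'
    have hsub : ∀ j, ((s - e' j * t : 𝓞 K) : K) = t * (x - e' j) := by
      intro j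
      rw [hx]
      push_cast
      field_simp
    have hfac : ∀ j, s - e' j * t ≠ 0 := by
      intro j h
      have h1 := hsub j
      rw [h] at h1
      have h2 : x - (e' j : K) ≠ 0 := fun h3 => hP2 (Finset.prod_eq_zero (Finset.mem_univ j) h3)
      have h3 : ((0 : 𝓞 K) : K) = 0 := rfl
      rw [h3] at h1
      exact (mul_ne_zero htK h2) h1.symm
    set P : 𝓞 K := ∏ j, (s - e' j * t) with hP
    have hPK : (P : K) = (t : K) ^ (2 * m) * ∏ j, (x - (e' j : K)) := by
      rw [hP]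
      have : ((∏ j, (s - e' j * t) : 𝓞 K) : K) = ∏ j, ((s - e' j * t : 𝓞 K) : K) := map_prod _ _ _
      rw [this]
      simp_rw [hsub]
      rw [Finset.prod_mul_distrib]
      simp
    set j : ℕ := (n + 1) / 2 with hj
    -- divisibility by `4 ^ j`
    have hint : ∃ a : 𝓞 K, (a : K) = (P : K) / 4 ^ j := by
      apply exists_int_of_places
      intro w
      have h4 : w.1 (4 : K) = w.1 2 ^ 2 := by
        rw [← map_pow]; norm_num
      rw [map_div₀, map_pow, h4]
      have hpos : 0 < w.1 (2 : K) := w.1.pos (by norm_num)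
      rw [div_le_one (by positivity), ← pow_mul]
      rcases lt_or_ge (w.1 (2 : K)) 1 with hlt | hge
      · have hclose := U_close w.1 (place_na w) hlt (hA1 w) (hB1 w) hY0' (hx01 w) (hw01 w) n
        rw [hn] at hclose
        have h5 : w.1 (P : K) = ∏ j, w.1 ((s - e' j * t : 𝓞 K) : K) := by
          rw [hP, ← map_prod]
          congr 1
          exact map_prod _ _ _
        rw [h5, ← Finset.mul_prod_erase _ _ (Finset.mem_univ j0)]
        have h6 : w.1 ((s - e' j0 * t : 𝓞 K) : K) ≤ w.1 2 ^ (n + 1) := by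
          rw [hsub, map_mul]
          have := place_int_le w t
          calc w.1 (t : K) * w.1 (x - e' j0) ≤ 1 * w.1 (x - e' j0) := by
                gcongr
            _ ≤ _ := by rw [one_mul]; exact hclose
        have h7 : ∏ j ∈ Finset.univ.erase j0, w.1 ((s - e' j * t : 𝓞 K) : K) ≤ 1 :=
          Finset.prod_le_one (fun _ _ => w.1.nonneg _) (fun j _ => place_int_le w _)
        calc w.1 ((s - e' j0 * t : 𝓞 K) : K) * ∏ j ∈ Finset.univ.erase j0, w.1 ((s - e' j * t : 𝓞 K) : K)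
            ≤ w.1 2 ^ (n + 1) * 1 := by
              apply mul_le_mul h6 h7 (Finset.prod_nonneg fun _ _ => w.1.nonneg _) (by positivity)
          _ = w.1 2 ^ (n + 1) := mul_one _
          _ ≤ w.1 2 ^ (2 * j) := pow_le_pow_of_le_one hpos.le hlt.le (by omega)
      · have h8 : w.1 (2 : K) ≤ 1 := by
          have := place_int_le w (2 : 𝓞 K)
          rwa [show ((2 : 𝓞 K) : K) = 2 from map_ofNat (algebraMap (𝓞 K) K) 2] at this
        have h9 : w.1 (2 : K) = 1 := le_antisymm h8 hge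
        rw [h9, one_pow]
        exact place_int_le w P
    obtain ⟨a, ha⟩ := hint
    have h4j : (4 : K) ^ j ≠ 0 := pow_ne_zero _ (by norm_num)
    refine ⟨a, W A B Y0 x0 w0 n * 2 ^ j / t ^ m, ?_, ?_, ?_, ?_⟩
    · intro h
      rw [h] at ha
      have h3 : ((0 : 𝓞 K) : K) = 0 := rfl
      rw [h3, hPK] at ha
      have : (t : K) ^ (2 * m) * ∏ j, (x - (e' j : K)) ≠ 0 := mul_ne_zero (pow_ne_zero _ htK) hP2
      exact (div_ne_zero this h4j) ha.symm
    · have hW : W A B Y0 x0 w0 n ≠ 0 := by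
        intro h
        have := hcurve n
        rw [h, hn] at this
        apply hP1
        rw [← this]; simp
      exact div_ne_zero (mul_ne_zero hW (pow_ne_zero _ two_ne_zero)) (pow_ne_zero _ htK)
    · have e1 : ∏ i, (x - (e i : K)) = W A B Y0 x0 w0 n ^ 2 := by rw [hcurve n, hn]
      have e2 : ∏ j, (x - (e' j : K)) = (P : K) / (t : K) ^ (2 * m) := by
        rw [hPK]; field_simp
      show (∏ i, (x - (e i : K))) * ∏ j, (x - (e' j : K)) = _
      rw [e1, e2, ha]
      have : (4 : K) ^ j = (2 ^ j) ^ 2 := by rw [← pow_mul, mul_comm, pow_mul]; norm_num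
      rw [this]
      field_simp
      ring
    · have ha0 : Algebra.norm ℚ (P : K) ≠ 0 := by
        rw [Ne, Algebra.norm_eq_zero_iff, hPK]
        exact mul_ne_zero (pow_ne_zero _ htK) hP2
      have hNa : Real.log |(Algebra.norm ℚ (a : K) : ℝ)| =
          Real.log |(Algebra.norm ℚ (P : K) : ℝ)| - j * d * Real.log 4 := by
        have h1 : Algebra.norm ℚ (P : K) = Algebra.norm ℚ (a : K) * 4 ^ (finrank ℚ K * j) := by
          have h2 : (P : K) = a * algebraMap ℚ K (4 ^ j) := by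
            rw [ha, map_pow, map_ofNat]; field_simp
          rw [h2, map_mul, Algebra.norm_algebraMap, ← pow_mul, mul_comm j]
        have h3 : Algebra.norm ℚ (a : K) ≠ 0 := by
          intro h; rw [h, zero_mul] at h1; exact ha0 h1
        rw [h1]
        push_cast
        rw [abs_mul, Real.log_mul (by rw [abs_ne_zero]; exact_mod_cast h3) (by positivity),
          abs_of_nonneg (by positivity : (0 : ℝ) ≤ 4 ^ (finrank ℚ K * j)), Real.log_pow]
        push_cast
        rw [hd]; ring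
      have h5 := hC1 s t ht hst hfac
      rw [← hP, ← hx, Fintype.card_fin] at h5
      have h6 : Real.log 4 = 2 * Real.log 2 := by
        rw [show (4 : ℝ) = 2 ^ 2 by norm_num, Real.log_pow]; norm_num
      have h7 : Real.log (1 + logHeight₁ x) ≤ Real.log M + n * Real.log 9 := by
        have h8 := hgrow n
        rw [hn] at h8
        have h9 : 0 < 1 + logHeight₁ x := by
          have := zero_le_logHeight₁ x; linarith
        have h10 := Real.log_le_log h9 h8
        rwa [Real.log_mul hM.ne' (by positivity), Real.log_pow] at h10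
      have h8 : c * Real.log (1 + logHeight₁ x) ≤ c * Real.log M + n * (d * Real.log 2) := by
        have h9 := mul_le_mul_of_nonneg_left h7 hcpos.le
        have h10 : c * (n * Real.log 9) = n * (d * Real.log 2) := by
          rw [hc]; field_simp
        linarith
      have h9 : (n : ℝ) ≤ 2 * j := by
        have : n ≤ 2 * j := by omega
        exact_mod_cast this
      have h10 : n * (d * Real.log 2) ≤ 2 * j * (d * Real.log 2) :=
        mul_le_mul_of_nonneg_right h9 (by positivity)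
      rw [hNa, h6]
      push_cast at h5 ⊢
      linarith

end core

end Pool.Agent.H92.Vojta
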