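import Mathlib

namespace Pool.Agent.H92.Vojta

/-! ### Points on `y ^ 2 = x ^ 3 + A x + B` close to a given point at the places above 2 -/

section
variable {K : Type*} [Field K]

/-- first coordinate of the double of a point -/
def dX (A B X : K) : K := ((X ^ 2 - A) ^ 2 - 8 * B * X) / (4 * (X ^ 3 + A * X + B))

/-- second coordinate of the double of a point -/
def dY (A B X Y : K) : K :=
  (X ^ 6 + 5 * A * X ^ 4 + 20 * B * X ^ 3 - 5 * A ^ 2 * X ^ 2 - 4 * A * B * X - 8 * B ^ 2 - A ^ 3)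
    / (8 * Y ^ 3)

/-- slope -/
def sl (x0 w0 X Y : K) : K := (Y - w0) / (X - x0)

/-- first coordinate of the sum -/
def aX (x0 w0 X Y : K) : K := (sl x0 w0 X Y) ^ 2 - X - x0

/-- second coordinate of the sum -/
def aY (x0 w0 X Y : K) : K := -(w0 + sl x0 w0 X Y * (aX x0 w0 X Y - x0))

lemma dbl_aux [CharZero K] {A B N M q : K} (hq : q ≠ 0)
    (h : M ^ 2 = N ^ 3 + 16 * A * N * q ^ 2 + 64 * B * q ^ 3) :
    M ^ 2 / (64 * q ^ 3) = (N / (4 * q)) ^ 3 + A * (N / (4 * q)) + B := by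
  rw [h]
  have h4 : (4 : K) ≠ 0 := by norm_num
  field_simp
  ring

lemma dbl_on_curve [CharZero K] {A B X Y : K} (h : Y ^ 2 = X ^ 3 + A * X + B) (hY : Y ≠ 0) :
    (dY A B X Y) ^ 2 = (dX A B X) ^ 3 + A * dX A B X + B := by
  have hq : X ^ 3 + A * X + B ≠ 0 := by rw [← h]; exact pow_ne_zero 2 hY
  have h6 : (8 * Y ^ 3) ^ 2 = 64 * (X ^ 3 + A * X + B) ^ 3 := by
    rw [← h]; ring
  unfold dY dX
  rw [div_pow, h6]
  apply dbl_aux hq
  ring

lemma add_on_curve {A B x0 w0 X Y : K} (h0 : w0 ^ 2 = x0 ^ 3 + A * x0 + B)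
    (h : Y ^ 2 = X ^ 3 + A * X + B) (hne : X - x0 ≠ 0) :
    (aY x0 w0 X Y) ^ 2 = (aX x0 w0 X Y) ^ 3 + A * aX x0 w0 X Y + B := by
  have hs : sl x0 w0 X Y * (X - x0) = Y - w0 := by
    unfold sl; field_simp
  set l := sl x0 w0 X Y with hl
  have hU : aX x0 w0 X Y = l ^ 2 - X - x0 := rfl
  have hW : aY x0 w0 X Y = -(w0 + l * (aX x0 w0 X Y - x0)) := rfl
  rw [hW]
  set U := aX x0 w0 X Y with hUdef
  -- the linear remainder of `q(x) - (w0 + l (x - x0))^2 - (x-x0)(x-X)(x-U)`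
  set α := A - 2 * l * (w0 - l * x0) - (x0 * X + x0 * U + X * U) with hα
  set β := B - (w0 - l * x0) ^ 2 + x0 * X * U with hβ
  have key : ∀ x : K, x ^ 3 + A * x + B - (w0 + l * (x - x0)) ^ 2 - (x - x0) * (x - X) * (x - U)
      = α * x + β := by
    intro x
    rw [hα, hβ, hU]; ring
  have e0 : α * x0 + β = 0 := by
    rw [← key x0, ← h0]; ring
  have e1 : α * X + β = 0 := by
    rw [← key X, ← h, hs]; ring
  have hα0 : α = 0 := by
    have : α * (X - x0) = 0 := by linear_combination e1 - e0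
    rcases mul_eq_zero.mp this with h | h
    · exact h
    · exact absurd h hne
  have hβ0 : β = 0 := by rw [hα0] at e0; simpa using e0
  have := key U
  rw [hα0, hβ0] at this
  linear_combination -this

lemma aX_sub {A B x0 w0 X Y : K}
    (h : Y ^ 2 = X ^ 3 + A * X + B) (hne : X - x0 ≠ 0) :
    aX x0 w0 X Y - x0 = (-(2 * w0 * Y) + ((A + 3 * x0 ^ 2) * X + (B + w0 ^ 2 - 2 * x0 ^ 3)))
      / (X - x0) ^ 2 := by
  unfold aX sl
  rw [eq_div_iff (pow_ne_zero 2 hne)]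
  field_simp
  linear_combination h

end

section nonarch
variable {K : Type*} [Field K] (v : AbsoluteValue K ℝ) (hna : IsNonarchimedean v)
include hna

lemma na_ofNat_le_one (n : ℕ) : v (n : K) ≤ 1 := by
  induction n with
  | zero => simp
  | succ n ih =>
    push_cast
    refine (hna _ _).trans ?_
    simp [ih]

lemma na_add_eq {x y : K} (h : v y < v x) : v (x + y) = v x := by
  apply le_antisymm
  · exact (hna _ _).trans (by rw [max_eq_left h.le])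
  · by_contra hlt
    push Not at hlt
    have h1 : v x ≤ max (v (x + y)) (v (-y)) := by
      have := hna (x + y) (-y)
      simpa using this
    rw [v.map_neg] at h1
    exact absurd h1 (not_le.mpr (max_lt hlt h))

lemma na_sub_eq {x y : K} (h : v y < v x) : v (x - y) = v x := by
  rw [sub_eq_add_neg]
  exact na_add_eq v hna (by rwa [v.map_neg])

lemma na_sub_le {x y : K} {r : ℝ} (hx : v x ≤ r) (hy : v y ≤ r) : v (x - y) ≤ r := by
  rw [sub_eq_add_neg]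
  exact (hna _ _).trans (max_le hx (by rwa [v.map_neg]))

lemma na_add_le {x y : K} {r : ℝ} (hx : v x ≤ r) (hy : v y ≤ r) : v (x + y) ≤ r :=
  (hna _ _).trans (max_le hx hy)

lemma v_cubic {A B X : K} (hA : v A ≤ 1) (hB : v B ≤ 1) (hX : 1 < v X) :
    v (X ^ 3 + A * X + B) = v X ^ 3 := by
  have h1 : v (A * X + B) < v (X ^ 3) := by
    have h2 : v (A * X + B) ≤ v X := by
      apply na_add_le v hna
      · rw [map_mul]; nlinarith [v.nonneg A]
      · linarith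
    rw [map_pow]
    have : v X < v X ^ 3 := by nlinarith [mul_pos (sub_pos.mpr hX) (sub_pos.mpr hX)]
    linarith
  rw [add_assoc, na_add_eq v hna h1, map_pow]

lemma v_dX {A B X : K} (hA : v A ≤ 1) (hB : v B ≤ 1) (hX : 1 < v X) :
    v (dX A B X) = v X / v 2 ^ 2 := by
  unfold dX
  have hX0 : v X ≠ 0 := by linarith
  have h8 : v (8 : K) ≤ 1 := by
    have := na_ofNat_le_one v hna 8
    exact_mod_cast this
  have h1 : v (X ^ 2 - A) = v X ^ 2 := by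
    rw [na_sub_eq v hna, map_pow]
    rw [map_pow]; nlinarith
  have h2 : v ((X ^ 2 - A) ^ 2 - 8 * B * X) = v X ^ 4 := by
    rw [na_sub_eq v hna, map_pow, h1]
    · ring
    · rw [map_pow, h1, map_mul, map_mul]
      have h3 : v (8 : K) * v B ≤ 1 := by
        have := v.nonneg (8 : K); have := v.nonneg B
        nlinarith
      have h4 : v (8 : K) * v B * v X ≤ v X := by nlinarith
      have h5 : v X < v X ^ 4 := by
        have : 1 < v X ^ 3 := one_lt_pow₀ hX (by norm_num)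
        nlinarith
      calc v 8 * v B * v X ≤ v X := h4
        _ < v X ^ 4 := h5
        _ = (v X ^ 2) ^ 2 := by ring
  have h4 : v (4 : K) = v 2 ^ 2 := by
    rw [← map_pow]; norm_num
  rw [map_div₀, h2, map_mul, v_cubic v hna hA hB hX, h4]
  rcases eq_or_ne (v 2) 0 with h | h
  · rw [h]; simp
  · field_simp

end nonarch

section seq
variable {K : Type*} [Field K]

/-- The sequence of points `2 ^ n • (1/4, Y0)`. -/
def sq (A B Y0 : K) : ℕ → K × K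
  | 0 => (1 / 4, Y0)
  | n + 1 => (dX A B (sq A B Y0 n).1, dY A B (sq A B Y0 n).1 (sq A B Y0 n).2)

/-- first coordinates of the points `(x0, w0) + 2 ^ n • (1/4, Y0)` -/
def U (A B Y0 x0 w0 : K) (n : ℕ) : K := aX x0 w0 (sq A B Y0 n).1 (sq A B Y0 n).2

/-- second coordinates of the points `(x0, w0) + 2 ^ n • (1/4, Y0)` -/
def W (A B Y0 x0 w0 : K) (n : ℕ) : K := aY x0 w0 (sq A B Y0 n).1 (sq A B Y0 n).2

variable [CharZero K] (v : AbsoluteValue K ℝ) (hna : IsNonarchimedean v) (h2 : v 2 < 1)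
  {A B Y0 x0 w0 : K} (hA : v A ≤ 1) (hB : v B ≤ 1)
  (hY0 : Y0 ^ 2 = (1 / 4) ^ 3 + A * (1 / 4) + B)
include hna h2 hA hB hY0

lemma sq_inv (n : ℕ) :
    (sq A B Y0 n).2 ^ 2 = (sq A B Y0 n).1 ^ 3 + A * (sq A B Y0 n).1 + B ∧
    v (sq A B Y0 n).1 = ((v 2)⁻¹) ^ (2 * (n + 1)) ∧
    v (sq A B Y0 n).2 = ((v 2)⁻¹) ^ (3 * (n + 1)) := by
  have hp : 0 < v 2 := v.pos (by norm_num)
  have hθ : 1 < (v 2)⁻¹ := (one_lt_inv₀ hp).mpr h2
  have hYof : ∀ (X Y : K) (m : ℕ), Y ^ 2 = X ^ 3 + A * X + B → v X = ((v 2)⁻¹) ^ (2 * (m + 1)) →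
      v Y = ((v 2)⁻¹) ^ (3 * (m + 1)) := by
    intro X Y m h hX
    have hX1 : 1 < v X := by rw [hX]; exact one_lt_pow₀ hθ (by omega)
    have h1 : v Y ^ 2 = (((v 2)⁻¹) ^ (3 * (m + 1))) ^ 2 := by
      rw [← map_pow, h, v_cubic v hna hA hB hX1, hX, ← pow_mul, ← pow_mul]
      congr 1; ring
    exact (pow_left_inj₀ (v.nonneg _) (by positivity) (by norm_num)).mp h1
  induction n with
  | zero =>
    have hX : v (sq A B Y0 0).1 = ((v 2)⁻¹) ^ (2 * (0 + 1)) := by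
      simp only [sq]
      rw [map_div₀, map_one]
      have : v (4 : K) = v 2 ^ 2 := by rw [← map_pow]; norm_num
      rw [this]; simp
    exact ⟨hY0, hX, hYof _ _ 0 hY0 hX⟩
  | succ n ih =>
    obtain ⟨ih1, ih2, ih3⟩ := ih
    have hY : (sq A B Y0 n).2 ≠ 0 := by
      intro h
      rw [h, map_zero] at ih3
      have : 0 < ((v 2)⁻¹) ^ (3 * (n + 1)) := by positivity
      linarith
    have hX1 : 1 < v (sq A B Y0 n).1 := by rw [ih2]; exact one_lt_pow₀ hθ (by omega)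
    have hc : (sq A B Y0 (n + 1)).2 ^ 2 = (sq A B Y0 (n + 1)).1 ^ 3 +
        A * (sq A B Y0 (n + 1)).1 + B := dbl_on_curve ih1 hY
    have hX : v (sq A B Y0 (n + 1)).1 = ((v 2)⁻¹) ^ (2 * (n + 1 + 1)) := by
      simp only [sq]
      rw [v_dX v hna hA hB hX1, ih2]
      rw [div_eq_mul_inv, ← inv_pow, ← pow_add]
      congr 1
    exact ⟨hc, hX, hYof _ _ (n + 1) hc hX⟩

lemma sq_sub_ne (hx0 : v x0 ≤ 1) (n : ℕ) : v ((sq A B Y0 n).1 - x0) = ((v 2)⁻¹) ^ (2 * (n + 1)) := by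
  have hp : 0 < v 2 := v.pos (by norm_num)
  have hθ : 1 < (v 2)⁻¹ := (one_lt_inv₀ hp).mpr h2
  obtain ⟨h1, h3, h4⟩ := sq_inv v hna h2 hA hB hY0 n
  rw [na_sub_eq v hna, h3]
  rw [h3]
  have := one_lt_pow₀ hθ (show 2 * (n + 1) ≠ 0 by omega)
  linarith

lemma UW_on_curve (hx0 : v x0 ≤ 1) (hw0 : w0 ^ 2 = x0 ^ 3 + A * x0 + B) (n : ℕ) :
    W A B Y0 x0 w0 n ^ 2 = U A B Y0 x0 w0 n ^ 3 + A * U A B Y0 x0 w0 n + B := by
  have hp : 0 < v 2 := v.pos (by norm_num)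
  obtain ⟨h1, h3, h4⟩ := sq_inv v hna h2 hA hB hY0 n
  apply add_on_curve hw0 h1
  intro h
  have := sq_sub_ne v hna h2 hA hB hY0 hx0 n
  rw [h, map_zero] at this
  have : 0 < ((v 2)⁻¹) ^ (2 * (n + 1)) := by positivity
  linarith

lemma U_sub (hx0 : v x0 ≤ 1) (n : ℕ) :
    U A B Y0 x0 w0 n - x0 = (-(2 * w0 * (sq A B Y0 n).2) +
      ((A + 3 * x0 ^ 2) * (sq A B Y0 n).1 + (B + w0 ^ 2 - 2 * x0 ^ 3)))
      / ((sq A B Y0 n).1 - x0) ^ 2 := by
  have hp : 0 < v 2 := v.pos (by norm_num)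
  obtain ⟨h1, h3, h4⟩ := sq_inv v hna h2 hA hB hY0 n
  apply aX_sub h1
  intro h
  have := sq_sub_ne v hna h2 hA hB hY0 hx0 n
  rw [h, map_zero] at this
  have : 0 < ((v 2)⁻¹) ^ (2 * (n + 1)) := by positivity
  linarith

lemma v_rest (hx0 : v x0 ≤ 1) (hw0 : v w0 ≤ 1) (n : ℕ) :
    v ((A + 3 * x0 ^ 2) * (sq A B Y0 n).1 + (B + w0 ^ 2 - 2 * x0 ^ 3)) ≤
      ((v 2)⁻¹) ^ (2 * (n + 1)) := by
  have hp : 0 < v 2 := v.pos (by norm_num)
  have hθ : 1 < (v 2)⁻¹ := (one_lt_inv₀ hp).mpr h2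
  obtain ⟨h1, h3, h4⟩ := sq_inv v hna h2 hA hB hY0 n
  have hone := one_lt_pow₀ hθ (show 2 * (n + 1) ≠ 0 by omega)
  have h3' : v (3 : K) ≤ 1 := by exact_mod_cast na_ofNat_le_one v hna 3
  have hx2 : v (3 * x0 ^ 2) ≤ 1 := by
    rw [map_mul, map_pow]
    exact mul_le_one₀ h3' (by positivity) (pow_le_one₀ (v.nonneg _) hx0)
  apply na_add_le v hna
  · rw [map_mul, h3]
    have : v (A + 3 * x0 ^ 2) ≤ 1 := na_add_le v hna hA hx2
    exact mul_le_of_le_one_left (by positivity) this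
  · refine le_trans ?_ hone.le
    apply na_sub_le v hna
    · apply na_add_le v hna hB
      rw [map_pow]; exact pow_le_one₀ (v.nonneg _) hw0
    · rw [map_mul, map_pow]
      exact mul_le_one₀ h2.le (by positivity) (pow_le_one₀ (v.nonneg _) hx0)

lemma U_close (hx0 : v x0 ≤ 1) (hw0 : v w0 ≤ 1) (n : ℕ) :
    v (U A B Y0 x0 w0 n - x0) ≤ (v 2) ^ (n + 1) := by
  have hp : 0 < v 2 := v.pos (by norm_num)
  have hθ : 1 < (v 2)⁻¹ := (one_lt_inv₀ hp).mpr h2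
  obtain ⟨h1, h3, h4⟩ := sq_inv v hna h2 hA hB hY0 n
  rw [U_sub v hna h2 hA hB hY0 hx0 n, map_div₀, map_pow, sq_sub_ne v hna h2 hA hB hY0 hx0 n]
  have hnum : v (-(2 * w0 * (sq A B Y0 n).2) +
      ((A + 3 * x0 ^ 2) * (sq A B Y0 n).1 + (B + w0 ^ 2 - 2 * x0 ^ 3))) ≤
      ((v 2)⁻¹) ^ (3 * (n + 1)) := by
    apply na_add_le v hna
    · rw [v.map_neg, map_mul, map_mul, h4]
      have : v 2 * v w0 ≤ 1 := mul_le_one₀ h2.le (v.nonneg _) hw0
      exact mul_le_of_le_one_left (by positivity) this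
    · refine (v_rest v hna h2 hA hB hY0 hx0 hw0 n).trans ?_
      exact pow_le_pow_right₀ hθ.le (by omega)
  rw [div_le_iff₀ (by positivity)]
  refine hnum.trans (le_of_eq ?_)
  rw [← pow_mul, inv_pow, inv_pow]
  field_simp
  congr 1; ring

lemma U_exact (hx0 : v x0 ≤ 1) (hw0 : v w0 ≤ 1) (n : ℕ)
    (hn : ((v 2)⁻¹) ^ (2 * (n + 1)) < v 2 * v w0 * ((v 2)⁻¹) ^ (3 * (n + 1))) :
    v (U A B Y0 x0 w0 n - x0) = v 2 * v w0 * (v 2) ^ (n + 1) := by
  have hp : 0 < v 2 := v.pos (by norm_num)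
  obtain ⟨h1, h3, h4⟩ := sq_inv v hna h2 hA hB hY0 n
  rw [U_sub v hna h2 hA hB hY0 hx0 n, map_div₀, map_pow, sq_sub_ne v hna h2 hA hB hY0 hx0 n]
  have hfirst : v (-(2 * w0 * (sq A B Y0 n).2)) = v 2 * v w0 * ((v 2)⁻¹) ^ (3 * (n + 1)) := by
    rw [v.map_neg, map_mul, map_mul, h4]
  have hrest := v_rest v hna h2 hA hB hY0 hx0 hw0 n
  rw [na_add_eq v hna (by rw [hfirst]; exact lt_of_le_of_lt hrest hn), hfirst]
  rw [← pow_mul, inv_pow, inv_pow]
  field_simp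
  rw [mul_assoc, mul_assoc, ← pow_add]
  congr 2
  ring

end seq

end Pool.Agent.H92.Vojta
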