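import Mathlib

namespace Pool.Agent.H92.Vojta

/-- The logarithmic discriminant `d_K(P)` of a point `P` with residue field `L ⊇ K`:
`(1 / [L : K]) log |D_L| - log |D_K|`. -/
noncomputable def logDisc (K L : Type*) [Field K] [NumberField K] [Field L] [NumberField L]
    [Algebra K L] : ℝ :=
  Real.log |(NumberField.discr L : ℝ)| / Module.finrank K L
    - Real.log |(NumberField.discr K : ℝ)|

end Pool.Agent.H92.Vojta
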