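import Pool.Agent.H92.Vojta.Core

namespace Pool.Agent.H92.Vojta

open NumberField Module Height

section
variable {K : Type*} [Field K] [NumberField K]

lemma Good.transfer {F G : K → K} {g : ℕ} (hg : 1 ≤ g) (hF : Good K F g) (φ β : K → K)
    (Z : Set K) (hZ : Z.Finite) (hinj : Set.InjOn φ Zᶜ)
    (hβ : ∀ x ∉ Z, β x ≠ 0 ∧ G (φ x) = β x ^ 2 * F x) (C0 : ℝ) (hC0 : 0 ≤ C0)
    (h1 : ∀ x ∉ Z, logHeight₁ x ≤ logHeight₁ (φ x) + C0)
    (h2 : ∀ x ∉ Z, logHeight₁ (φ x) ≤ logHeight₁ x + C0) : Good K G g := by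
  obtain ⟨S, c, C, hS, hc, h⟩ := hF
  refine ⟨φ '' (S \ Z), c, C + 2 * ((g : ℝ) - 1) * C0 + c * Real.log (1 + C0), ?_, hc, ?_⟩
  · apply (hS.sdiff hZ).image
    intro x hx y hy hxy
    exact hinj hx.2 hy.2 hxy
  · rintro _ ⟨x, ⟨hxS, hxZ⟩, rfl⟩
    obtain ⟨a, b, ha, hb, hab, hle⟩ := h x hxS
    obtain ⟨hβ1, hβ2⟩ := hβ x hxZ
    refine ⟨a, β x * b, ha, mul_ne_zero hβ1 hb, ?_, ?_⟩
    · rw [hβ2, hab]; ring
    · have e1 := h1 x hxZ
      have e2 := h2 x hxZ
      have hx0 := zero_le_logHeight₁ x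
      have hφ0 := zero_le_logHeight₁ (φ x)
      have hg' : (0 : ℝ) ≤ 2 * ((g : ℝ) - 1) := by
        have : (1 : ℝ) ≤ g := by exact_mod_cast hg
        linarith
      have e3 : 1 + logHeight₁ (φ x) ≤ (1 + C0) * (1 + logHeight₁ x) := by nlinarith
      have e4 : Real.log (1 + logHeight₁ (φ x)) ≤ Real.log (1 + C0) + Real.log (1 + logHeight₁ x) := by
        rw [← Real.log_mul (by positivity) (by positivity)]
        exact Real.log_le_log (by positivity) e3
      have e5 := mul_le_mul_of_nonneg_left e4 hc.le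
      have e6 := mul_le_mul_of_nonneg_left e1 hg'
      linarith

end

section closure
variable {k : Type*} [Field k] [NumberField k]

lemma exists_mult {n : ℕ} (z : Fin n → AlgebraicClosure k) :
    ∃ M : ℤ, M ≠ 0 ∧ ∀ j, IsIntegral ℤ ((M : AlgebraicClosure k) * z j) := by
  classical
  have h1 : Algebra.IsAlgebraic ℚ (AlgebraicClosure k) := Algebra.IsAlgebraic.trans ℚ k _
  have h2 : Algebra.IsAlgebraic ℤ (AlgebraicClosure k) :=
    (IsFractionRing.comap_isAlgebraic_iff (A := ℤ) (K := ℚ) (C := AlgebraicClosure k)).mpr h1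
  obtain ⟨M, hM, h⟩ := Algebra.IsAlgebraic.exists_integral_multiples ℤ (Finset.univ.image z)
  refine ⟨M, hM, fun j => ?_⟩
  have := h (z j) (by simp)
  rwa [zsmul_eq_mul] at this

lemma odd_case {m : ℕ} (hm : 1 ≤ m) (r : Fin (3 + 2 * m) → AlgebraicClosure k)
    (hr : Function.Injective r) (lc : AlgebraicClosure k) (hlc : lc ≠ 0) :
    ∃ T : Set (AlgebraicClosure k), T.Finite ∧
      ∀ (E : IntermediateField k (AlgebraicClosure k)) [NumberField E], T ⊆ E →
      ∀ G : E → E, (∀ x : E, ((G x : E) : AlgebraicClosure k) = lc * ∏ j, ((x : AlgebraicClosure k) - r j)) →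
      Good E G (m + 1) := by
  classical
  set ι0 : Fin 3 → Fin (3 + 2 * m) := Fin.castAdd (2 * m) with hι0
  set ι1 : Fin (2 * m) → Fin (3 + 2 * m) := Fin.natAdd 3 with hι1
  set σ : AlgebraicClosure k := r (ι0 0) + r (ι0 1) + r (ι0 2) with hσ
  obtain ⟨M, hM, hint⟩ := exists_mult (fun j => 3 * r j - σ)
  have hMΩ : (M : AlgebraicClosure k) ≠ 0 := by exact_mod_cast hM
  set e : Fin (3 + 2 * m) → AlgebraicClosure k := fun j => (M : AlgebraicClosure k) * (3 * r j - σ) with he
  set j0 : Fin (2 * m) := ⟨0, by omega⟩ with hj0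
  obtain ⟨κ, hκ⟩ := IsAlgClosed.exists_pow_nat_eq (lc / (3 * (M : AlgebraicClosure k)) ^ (3 + 2 * m))
    (show 0 < 2 by norm_num)
  obtain ⟨w0, hw0⟩ := IsAlgClosed.exists_pow_nat_eq (∏ i, (e (ι1 j0) - e (ι0 i)))
    (show 0 < 2 by norm_num)
  obtain ⟨Y0, hY0⟩ := IsAlgClosed.exists_pow_nat_eq (∏ i, (1 / 4 - e (ι0 i)))
    (show 0 < 2 by norm_num)
  refine ⟨Set.range r ∪ {κ, w0, Y0}, (Set.finite_range _).union (by simp), ?_⟩
  intro E _ hT G hG
  have hr' : ∀ j, r j ∈ E := fun j => hT (Or.inl ⟨j, rfl⟩)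
  have hκE : κ ∈ E := hT (Or.inr (by simp))
  have hw0E : w0 ∈ E := hT (Or.inr (by simp))
  have hY0E : Y0 ∈ E := hT (Or.inr (by simp))
  set rE : Fin (3 + 2 * m) → E := fun j => ⟨r j, hr' j⟩ with hrE
  set σE : E := rE (ι0 0) + rE (ι0 1) + rE (ι0 2) with hσE
  have hσE' : (σE : AlgebraicClosure k) = σ := rfl
  have hintE : ∀ j, IsIntegral ℤ ((M : E) * (3 * rE j - σE)) := by
    intro j
    have h1 : IsIntegral ℤ (algebraMap E (AlgebraicClosure k) ((M : E) * (3 * rE j - σE))) := by
      have h2 : algebraMap E (AlgebraicClosure k) ((M : E) * (3 * rE j - σE)) =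
          (M : AlgebraicClosure k) * (3 * r j - σ) := by
        rw [map_mul, map_sub, map_mul, map_intCast, map_ofNat]
        rfl
      rw [h2]; exact hint j
    exact (isIntegral_algebraMap_iff (algebraMap E (AlgebraicClosure k)).injective).mp h1
  set eE : Fin (3 + 2 * m) → 𝓞 E := fun j => ⟨(M : E) * (3 * rE j - σE), hintE j⟩ with heE
  have heE' : ∀ j, (eE j : E) = (M : E) * (3 * rE j - σE) := fun j => rfl
  have heE'' : ∀ j, (((eE j : E)) : AlgebraicClosure k) = e j := by
    intro j
    rw [heE']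
    have : (((M : E) * (3 * rE j - σE) : E) : AlgebraicClosure k) =
        algebraMap E (AlgebraicClosure k) ((M : E) * (3 * rE j - σE)) := rfl
    rw [this, map_mul, map_sub, map_mul, map_intCast, map_ofNat]
    rfl
  have hME : (M : E) ≠ 0 := by exact_mod_cast hM
  have h3E : (3 : E) ≠ 0 := by norm_num
  have hcore := core (K := E) m (fun i => eE (ι0 i)) (fun j => eE (ι1 j)) j0
    (by simp only [heE']; rw [hσE]; ring)
    (by
      intro i h
      have h1 : (eE (ι1 j0) : E) = eE (ι0 i) := by rw [h]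
      rw [heE', heE'] at h1
      have h2 := mul_left_cancel₀ hME h1
      have h3 : rE (ι1 j0) = rE (ι0 i) := by
        have : (3 : E) * rE (ι1 j0) = 3 * rE (ι0 i) := by linear_combination h2
        exact mul_left_cancel₀ h3E this
      have h4 : r (ι1 j0) = r (ι0 i) := congrArg (fun z : E => (z : AlgebraicClosure k)) h3
      have h5 := hr h4
      have h6 := congrArg Fin.val h5
      simp only [hι0, hι1, Fin.val_natAdd, Fin.val_castAdd] at h6
      have := i.2
      omega)
    ⟨w0, hw0E⟩ ⟨Y0, hY0E⟩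
    (by
      apply (algebraMap E (AlgebraicClosure k)).injective
      rw [map_pow, map_prod]
      simp only [map_sub]
      have h1 : ∀ j, algebraMap E (AlgebraicClosure k) (eE j : E) = e j := heE''
      simp only [h1]
      exact hw0)
    (by
      apply (algebraMap E (AlgebraicClosure k)).injective
      rw [map_pow, map_prod]
      simp only [map_sub, map_div₀, map_one, map_ofNat]
      have h1 : ∀ j, algebraMap E (AlgebraicClosure k) (eE j : E) = e j := heE''
      simp only [h1]
      exact hY0)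
  set T0 : ℝ := totalWeight E * Real.log 2 with hT0
  have hT0' : 0 ≤ T0 := by positivity
  set c1 : E := 1 / (3 * (M : E)) with hc1
  set C0 : ℝ := T0 + logHeight₁ c1 + logHeight₁ (σE / 3) + logHeight₁ (3 * (M : E)) +
    logHeight₁ ((M : E) * σE) with hC0
  have n1 := zero_le_logHeight₁ c1
  have n2 := zero_le_logHeight₁ (σE / 3)
  have n3 := zero_le_logHeight₁ (3 * (M : E))
  have n4 := zero_le_logHeight₁ ((M : E) * σE)
  refine hcore.transfer (by omega) (fun x => x * c1 + σE / 3) (fun _ => ⟨κ, hκE⟩) ∅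
    Set.finite_empty ?_ ?_ C0 (by positivity) ?_ ?_
  · intro x _ y _ hxy
    simp only [add_left_inj] at hxy
    have hc1' : c1 ≠ 0 := by
      rw [hc1]; exact one_div_ne_zero (mul_ne_zero h3E hME)
    exact mul_right_cancel₀ hc1' hxy
  · intro x _
    constructor
    · intro h
      have h1 : κ = 0 := congrArg (fun z : E => (z : AlgebraicClosure k)) h
      rw [h1] at hκ
      have h2 : lc / (3 * (M : AlgebraicClosure k)) ^ (3 + 2 * m) ≠ 0 := by
        apply div_ne_zero hlc
        apply pow_ne_zero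
        exact mul_ne_zero (by norm_num) hMΩ
      apply h2
      rw [← hκ]; simp
    · apply Subtype.ext
      rw [hG]
      have h3M : (3 * (M : AlgebraicClosure k)) ≠ 0 := mul_ne_zero (by norm_num) hMΩ
      have hfac : ∀ j, (((x * c1 + σE / 3 : E)) : AlgebraicClosure k) - r j =
          (3 * (M : AlgebraicClosure k))⁻¹ * ((x : AlgebraicClosure k) - e j) := by
        intro j
        have h0 : (((x * c1 + σE / 3 : E)) : AlgebraicClosure k) =
            algebraMap E (AlgebraicClosure k) (x * (1 / (3 * (M : E))) + σE / 3) := rfl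
        rw [h0]
        simp only [map_add, map_mul, map_div₀, map_one, map_ofNat, map_intCast]
        have h4 : algebraMap E (AlgebraicClosure k) σE = σ := rfl
        have h5 : algebraMap E (AlgebraicClosure k) x = (x : AlgebraicClosure k) := rfl
        rw [h4, h5, he]
        have h3 : (3 : AlgebraicClosure k) ≠ 0 := by norm_num
        field_simp
        ring
      simp_rw [hfac]
      rw [Finset.prod_mul_distrib, Finset.prod_const, Finset.card_univ, Fintype.card_fin]
      push_cast
      rw [hκ, Fin.prod_univ_add]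
      simp only [heE'']
      rw [inv_pow]
      field_simp
      rfl
  · intro x _
    have h1 : x = (3 * (M : E)) * (x * c1 + σE / 3) - (M : E) * σE := by
      rw [hc1]; field_simp; ring
    have h2 := logHeight₁_sub_le ((3 * (M : E)) * (x * c1 + σE / 3)) ((M : E) * σE)
    rw [← h1] at h2
    have h3 := logHeight₁_mul_le (3 * (M : E)) (x * c1 + σE / 3)
    linarith
  · intro x _
    have h2 := logHeight₁_add_le (x * c1) (σE / 3)
    have h3 := logHeight₁_mul_le x c1
    linarith

lemma even_case {m : ℕ} (hm : 1 ≤ m) (r : Fin (3 + 2 * m + 1) → AlgebraicClosure k)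
    (hr : Function.Injective r) (lc : AlgebraicClosure k) (hlc : lc ≠ 0) :
    ∃ T : Set (AlgebraicClosure k), T.Finite ∧
      ∀ (E : IntermediateField k (AlgebraicClosure k)) [NumberField E], T ⊆ E →
      ∀ G : E → E, (∀ x : E, ((G x : E) : AlgebraicClosure k) = lc * ∏ j, ((x : AlgebraicClosure k) - r j)) →
      Good E G (m + 1) := by
  classical
  set R : AlgebraicClosure k := r (Fin.last _) with hR
  have hsub : ∀ j : Fin (3 + 2 * m), r j.castSucc - R ≠ 0 := by
    intro j h
    have h1 := hr (sub_eq_zero.mp h)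
    exact (Fin.castSucc_lt_last j).ne h1
  set ρ : Fin (3 + 2 * m) → AlgebraicClosure k := fun j => (r j.castSucc - R)⁻¹ with hρ
  have hρinj : Function.Injective ρ := by
    intro i j hij
    simp only [hρ] at hij
    have h1 := inv_injective hij
    have h2 := hr (sub_left_injective h1)
    exact Fin.castSucc_injective _ h2
  set lc1 : AlgebraicClosure k := lc * ∏ j : Fin (3 + 2 * m), (R - r j.castSucc) with hlc1
  have hlc1' : lc1 ≠ 0 := by
    apply mul_ne_zero hlc
    apply Finset.prod_ne_zero_iff.mpr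
    intro j _ h
    apply hsub j
    rw [← neg_sub, h, neg_zero]
  obtain ⟨T1, hT1, hodd⟩ := odd_case hm ρ hρinj lc1 hlc1'
  refine ⟨T1 ∪ (Set.range r ∪ {lc}), hT1.union ((Set.finite_range _).union (by simp)), ?_⟩
  intro E _ hT G hG
  have hT1' : T1 ⊆ E := fun z hz => hT (Or.inl hz)
  have hr' : ∀ j, r j ∈ E := fun j => hT (Or.inr (Or.inl ⟨j, rfl⟩))
  have hlcE : lc ∈ E := hT (Or.inr (Or.inr rfl))
  set RE : E := ⟨R, hr' _⟩ with hRE
  set rE : Fin (3 + 2 * m) → E := fun j => ⟨r j.castSucc, hr' _⟩ with hrE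
  set lcE : E := ⟨lc, hlcE⟩ with hlcE'
  set F : E → E := fun u => lcE * (∏ j, (RE - rE j)) * ∏ j, (u - (rE j - RE)⁻¹) with hF
  have hFG : Good E F (m + 1) := by
    apply hodd E hT1'
    intro x
    have h0 : ((F x : E) : AlgebraicClosure k) = algebraMap E (AlgebraicClosure k)
      (lcE * (∏ j, (RE - rE j)) * ∏ j, (x - (rE j - RE)⁻¹)) := rfl
    rw [h0]
    simp only [map_mul, map_prod, map_sub, map_inv₀]
    rfl
  set T0 : ℝ := totalWeight E * Real.log 2 with hT0
  have hT0' : 0 ≤ T0 := by positivity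
  have n1 := zero_le_logHeight₁ RE
  have hreq : ∀ j, rE j - RE ≠ 0 := by
    intro j h
    exact hsub j (congrArg (fun z : E => (z : AlgebraicClosure k)) h)
  refine hFG.transfer (by omega) (fun u => RE + u⁻¹) (fun u => (u⁻¹) ^ (m + 2)) {0}
    (Set.finite_singleton _) ?_ ?_ (T0 + logHeight₁ RE) (by positivity) ?_ ?_
  · intro x _ y _ hxy
    simp only [add_right_inj, inv_inj] at hxy
    exact hxy
  · intro u hu
    have hu' : u ≠ 0 := hu
    have huΩ : (u : AlgebraicClosure k) ≠ 0 := by
      intro h; apply hu'; exact Subtype.ext h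
    refine ⟨pow_ne_zero _ (inv_ne_zero hu'), ?_⟩
    apply Subtype.ext
    rw [hG]
    have h0 : (((u⁻¹) ^ (m + 2)) ^ 2 * F u : E) = ((u⁻¹) ^ (m + 2)) ^ 2 *
      (lcE * (∏ j, (RE - rE j)) * ∏ j, (u - (rE j - RE)⁻¹)) := rfl
    have h1 : ((((u⁻¹) ^ (m + 2)) ^ 2 * F u : E) : AlgebraicClosure k) =
        (((u : AlgebraicClosure k)⁻¹) ^ (m + 2)) ^ 2 *
        (lc * (∏ j : Fin (3 + 2 * m), (R - r j.castSucc)) *
          ∏ j : Fin (3 + 2 * m), ((u : AlgebraicClosure k) - (r j.castSucc - R)⁻¹)) := by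
      rw [h0]
      have h2 : (((((u⁻¹) ^ (m + 2)) ^ 2 * (lcE * (∏ j, (RE - rE j)) * ∏ j, (u - (rE j - RE)⁻¹)) : E))
          : AlgebraicClosure k) = algebraMap E (AlgebraicClosure k) (((u⁻¹) ^ (m + 2)) ^ 2 *
          (lcE * (∏ j, (RE - rE j)) * ∏ j, (u - (rE j - RE)⁻¹))) := rfl
      rw [h2]
      simp only [map_mul, map_prod, map_sub, map_inv₀, map_pow]
      rfl
    rw [h1]
    have h3 : (((RE + u⁻¹ : E)) : AlgebraicClosure k) = R + (u : AlgebraicClosure k)⁻¹ := rfl
    rw [h3, Fin.prod_univ_castSucc, ← hR]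
    have h4 : ∀ j : Fin (3 + 2 * m), R + (u : AlgebraicClosure k)⁻¹ - r j.castSucc =
        (u : AlgebraicClosure k)⁻¹ * ((R - r j.castSucc) *
          ((u : AlgebraicClosure k) - (r j.castSucc - R)⁻¹)) := by
      intro j
      have h5 := hsub j
      field_simp
      ring
    simp_rw [h4]
    rw [Finset.prod_mul_distrib, Finset.prod_const, Finset.card_univ, Fintype.card_fin,
      Finset.prod_mul_distrib]
    ring
  · intro u _
    have h1 : u⁻¹ = (RE + u⁻¹) - RE := by ring
    have h2 := logHeight₁_sub_le (RE + u⁻¹) RE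
    rw [← h1, logHeight₁_inv] at h2
    linarith
  · intro u _
    have h2 := logHeight₁_add_le RE u⁻¹
    rw [logHeight₁_inv] at h2
    linarith

open Polynomial in
/-- The case of one hyperelliptic curve. -/
lemma poly_case (f : k[X]) (hf : f.Separable) {g : ℕ} (hg : 2 ≤ g)
    (hdeg : f.natDegree = 2 * g + 1 ∨ f.natDegree = 2 * g + 2) :
    ∃ T : Set (AlgebraicClosure k), T.Finite ∧
      ∀ (E : IntermediateField k (AlgebraicClosure k)) [NumberField E], T ⊆ E →
      Good E (fun x => aeval x f) g := by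
  classical
  have hf0 : f ≠ 0 := hf.ne_zero
  set f1 : (AlgebraicClosure k)[X] := f.map (algebraMap k (AlgebraicClosure k)) with hf1
  have hf10 : f1 ≠ 0 := Polynomial.map_ne_zero hf0
  have hsep : f1.Separable := hf.map
  have hsplit : f1.Splits := IsAlgClosed.splits _
  have hprod := hsplit.eq_prod_roots
  have hnodup : f1.roots.Nodup := Polynomial.nodup_roots hsep
  have hcard : f1.roots.card = f.natDegree := by
    rw [← hsplit.natDegree_eq_card_roots, hf1, natDegree_map]
  -- enumerate the roots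
  have henum : ∀ n, f.natDegree = n → ∃ r : Fin n → AlgebraicClosure k, Function.Injective r ∧
      ∀ x : AlgebraicClosure k, eval x f1 = f1.leadingCoeff * ∏ j, (x - r j) := by
    intro n hn
    have hlen : f1.roots.toFinset.card = n := by
      rw [Multiset.toFinset_card_of_nodup hnodup, hcard, hn]
    set e := (f1.roots.toFinset.equivFinOfCardEq hlen) with he
    refine ⟨fun j => (e.symm j : AlgebraicClosure k), ?_, ?_⟩
    · intro i j hij
      exact e.symm.injective (Subtype.ext hij)
    · intro x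
      conv_lhs => rw [hprod]
      rw [eval_mul, eval_C, eval_multiset_prod, Multiset.map_map]
      congr 1
      have h1 : (f1.roots.map (fun a => x - a)).prod = ∏ a ∈ f1.roots.toFinset, (x - a) := by
        rw [Finset.prod, Multiset.toFinset_val, hnodup.dedup]
      have h2 : (Multiset.map (eval x ∘ fun a => X - C a) f1.roots).prod =
          (f1.roots.map (fun a => x - a)).prod := by
        congr 1
        apply Multiset.map_congr rfl
        intro a _
        simp
      rw [h2, h1, ← Finset.prod_coe_sort]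
      exact (Equiv.prod_comp e.symm (fun a => x - (a : AlgebraicClosure k))).symm
  have hlc : f1.leadingCoeff ≠ 0 := leadingCoeff_ne_zero.mpr hf10
  have heval : ∀ (E : IntermediateField k (AlgebraicClosure k)) (x : E),
      ((aeval x f : E) : AlgebraicClosure k) = eval (x : AlgebraicClosure k) f1 := by
    intro E x
    rw [hf1, eval_map_algebraMap]
    have : ((aeval x f : E) : AlgebraicClosure k) = algebraMap E (AlgebraicClosure k) (aeval x f) := rfl
    rw [this, ← aeval_algebraMap_apply]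
    rfl
  obtain ⟨m, rfl⟩ : ∃ m, g = m + 1 := ⟨g - 1, by omega⟩
  have hm : 1 ≤ m := by omega
  rcases hdeg with h | h
  · obtain ⟨r, hr, hx⟩ := henum (3 + 2 * m) (by omega)
    obtain ⟨T, hT, hE⟩ := odd_case hm r hr _ hlc
    exact ⟨T, hT, fun E _ hTE => hE E hTE _ (fun x => by rw [heval, hx])⟩
  · obtain ⟨r, hr, hx⟩ := henum (3 + 2 * m + 1) (by omega)
    obtain ⟨T, hT, hE⟩ := even_case hm r hr _ hlc
    exact ⟨T, hT, fun E _ hTE => hE E hTE _ (fun x => by rw [heval, hx])⟩

end closure

end Pool.Agent.H92.Vojta
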