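import Pool.Agent.H92.Vojta.Defs
import Pool.Agent.H92.Vojta.Transfer

namespace Pool.Agent.H92.Vojta

open NumberField Module Height Polynomial

universe u v

theorem final {k : Type u} [Field k] [NumberField k] {n : ℕ} (g : Fin n → ℕ)
    (hg : ∀ i, 2 ≤ g i) (f : Fin n → k[X]) (hf : ∀ i, (f i).Separable)
    (hdeg : ∀ i, (f i).natDegree = 2 * g i + 1 ∨ (f i).natDegree = 2 * g i + 2) :
    ∃ K₀ : IntermediateField k (AlgebraicClosure k), NumberField K₀ ∧
    ∀ (K : IntermediateField k (AlgebraicClosure k)) [NumberField K], K₀ ≤ K →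
    ∃ (S : Fin n → Set K) (c C : ℝ), (∀ i, (S i).Infinite) ∧ 0 < c ∧
      ∀ x : Fin n → K, (∀ i, x i ∈ S i) →
      ∀ (L : Type v) [Field L] [NumberField L] [Algebra K L] (y : Fin n → L),
        (∀ i, y i ^ 2 = algebraMap K L (aeval (x i) (f i))) →
        IntermediateField.adjoin K (Set.range y) = ⊤ →
        finrank K L ≤ 2 ^ n ∧
        logDisc K L + c * ∑ i, Real.log (1 + logHeight₁ (x i)) ≤
          ∑ i, ((g i : ℝ) - 1) * logHeight₁ (x i) + C := by
  classical
  choose T hTfin hT using fun i => poly_case (f i) (hf i) (hg i) (hdeg i)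
  set T' : Set (AlgebraicClosure k) := ⋃ i, T i with hT'
  have hT'fin : T'.Finite := Set.finite_iUnion hTfin
  set K₀ : IntermediateField k (AlgebraicClosure k) := IntermediateField.adjoin k T' with hK₀
  have hfd : FiniteDimensional k K₀ := by
    have := hT'fin.to_subtype
    exact IntermediateField.finiteDimensional_adjoin
      (fun x _ => Algebra.IsIntegral.isIntegral x)
  refine ⟨K₀, ?_, ?_⟩
  · have : FiniteDimensional ℚ K₀ := FiniteDimensional.trans ℚ k K₀
    exact NumberField.mk
  intro K _ hK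
  have hTK : ∀ i, T i ⊆ K := by
    intro i z hz
    exact hK (IntermediateField.subset_adjoin k T' (Set.mem_iUnion.mpr ⟨i, hz⟩))
  choose S c C hS hc hgood using fun i => hT i K (hTK i)
  set c0 : ℝ := (∑ i, (c i / 2)⁻¹ + 1)⁻¹ with hc0
  have hsumnn : 0 ≤ ∑ i, (c i / 2)⁻¹ := Finset.sum_nonneg fun i _ => by
    have := hc i; positivity
  have hc0pos : 0 < c0 := by rw [hc0]; positivity
  have hc0le : ∀ i, c0 ≤ c i / 2 := by
    intro i
    have h1 := hc i
    rw [hc0, inv_le_comm₀ (by positivity) (by positivity)]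
    have h2 : (c i / 2)⁻¹ ≤ ∑ j, (c j / 2)⁻¹ :=
      Finset.single_le_sum (f := fun j => (c j / 2)⁻¹) (fun j _ => by
        have := hc j; positivity) (Finset.mem_univ i)
    linarith
  refine ⟨S, c0, ∑ i, (finrank ℚ K * Real.log 4 + C i) / 2, hS, hc0pos, ?_⟩
  intro x hx L _ _ _ y hy htop
  choose a b ha hb hab hle using fun i => hgood i (x i) (hx i)
  set y' : Fin n → L := fun i => y i * (algebraMap K L (b i))⁻¹ with hy'
  have hbL : ∀ i, algebraMap K L (b i) ≠ 0 := fun i =>
    (map_ne_zero_iff _ (algebraMap K L).injective).mpr (hb i)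
  have hy'sq : ∀ i, y' i ^ 2 = algebraMap K L (a i : K) := by
    intro i
    have h1 := hbL i
    have h2 : aeval (x i) (f i) = b i ^ 2 * (a i : K) := hab i
    simp only [hy']
    rw [mul_pow, hy, h2, map_mul, map_pow]
    field_simp
  have htop' : IntermediateField.adjoin K (Set.range y') = ⊤ := by
    rw [eq_top_iff, ← htop, IntermediateField.adjoin_le_iff]
    rintro _ ⟨i, rfl⟩
    have h1 : y i = y' i * algebraMap K L (b i) := by
      simp only [hy']
      rw [mul_assoc, inv_mul_cancel₀ (hbL i), mul_one]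
    rw [h1]
    exact mul_mem (IntermediateField.subset_adjoin K _ ⟨i, rfl⟩)
      (IntermediateField.algebraMap_mem _ _)
  obtain ⟨q1, q2⟩ := tower n L a ha y' hy'sq htop'
  refine ⟨q1, ?_⟩
  unfold logDisc
  have q3 : ∀ i, Real.log |(Algebra.norm ℚ (4 * (a i : K)) : ℝ)| / 2 ≤
      ((g i : ℝ) - 1) * logHeight₁ (x i) - c0 * Real.log (1 + logHeight₁ (x i)) +
        (finrank ℚ K * Real.log 4 + C i) / 2 := by
    intro i
    rw [log_norm_four K (a i) (ha i)]
    have h1 := hle i
    have h2 : 0 ≤ Real.log (1 + logHeight₁ (x i)) := by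
      apply Real.log_nonneg
      have := zero_le_logHeight₁ (x i)
      linarith
    have h3 := mul_le_mul_of_nonneg_right (hc0le i) h2
    linarith
  have q4 := Finset.sum_le_sum (fun i (_ : i ∈ Finset.univ) => q3 i)
  rw [Finset.sum_add_distrib, Finset.sum_sub_distrib, ← Finset.mul_sum] at q4
  linarith

end Pool.Agent.H92.Vojta
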