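import Pool.Agent.H92.Vojta.Curve

namespace Pool.Agent.H92.Vojta

open Height

section
variable {K : Type*} [Field K] [AdmissibleAbsValues K]

lemma h_div_le (x y : K) : logHeight₁ (x / y) ≤ logHeight₁ x + logHeight₁ y := by
  rw [div_eq_mul_inv]
  refine (logHeight₁_mul_le _ _).trans ?_
  rw [logHeight₁_inv]

lemma dX_height (A B : K) : ∃ C : ℝ, 0 ≤ C ∧ ∀ X : K,
    logHeight₁ (dX A B X) ≤ 9 * logHeight₁ X + C := by
  set T : ℝ := totalWeight K * Real.log 2 with hT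
  have hT0 : 0 ≤ T := by positivity
  refine ⟨5 * T + 3 * logHeight₁ A + 2 * logHeight₁ B + logHeight₁ (8 : K) + logHeight₁ (4 : K),
    ?_, fun X => ?_⟩
  · have := zero_le_logHeight₁ A
    have := zero_le_logHeight₁ B
    have := zero_le_logHeight₁ (8 : K)
    have := zero_le_logHeight₁ (4 : K)
    positivity
  · unfold dX
    have h0 := h_div_le ((X ^ 2 - A) ^ 2 - 8 * B * X) (4 * (X ^ 3 + A * X + B))
    have h1 := logHeight₁_sub_le ((X ^ 2 - A) ^ 2) (8 * B * X)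
    have h2 : logHeight₁ ((X ^ 2 - A) ^ 2) = 2 * logHeight₁ (X ^ 2 - A) := by
      rw [logHeight₁_pow]; norm_num
    have h3 := logHeight₁_sub_le (X ^ 2) A
    have h4 : logHeight₁ (X ^ 2) = 2 * logHeight₁ X := by rw [logHeight₁_pow]; norm_num
    have h5 := logHeight₁_mul_le (8 * B) X
    have h6 := logHeight₁_mul_le 8 B
    have h7 := logHeight₁_mul_le 4 (X ^ 3 + A * X + B)
    have h8 := logHeight₁_add_le (X ^ 3 + A * X) B
    have h9 := logHeight₁_add_le (X ^ 3) (A * X)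
    have h10 : logHeight₁ (X ^ 3) = 3 * logHeight₁ X := by rw [logHeight₁_pow]; norm_num
    have h11 := logHeight₁_mul_le A X
    linarith

lemma sq_height (A B Y0 : K) : ∃ M : ℝ, 0 ≤ M ∧ ∀ n : ℕ,
    logHeight₁ (sq A B Y0 n).1 ≤ M * 9 ^ n := by
  obtain ⟨C, hC, h⟩ := dX_height A B
  refine ⟨logHeight₁ (1 / 4 : K) + C, add_nonneg (zero_le_logHeight₁ _) hC, ?_⟩
  have key : ∀ n : ℕ, logHeight₁ (sq A B Y0 n).1 + C ≤ (logHeight₁ (1 / 4 : K) + C) * 9 ^ n := by
    intro n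
    induction n with
    | zero => simp [sq]
    | succ n ih =>
      have h1 := h (sq A B Y0 n).1
      simp only [sq]
      rw [pow_succ]
      linarith
  intro n
  have := key n
  linarith

lemma aX_height (A B x0 w0 : K) : ∃ C : ℝ, 0 ≤ C ∧ ∀ X Y : K, Y ^ 2 = X ^ 3 + A * X + B →
    logHeight₁ (aX x0 w0 X Y) ≤ 7 * logHeight₁ X + C := by
  set T : ℝ := totalWeight K * Real.log 2 with hT
  have hT0 : 0 ≤ T := by positivity
  refine ⟨8 * T + logHeight₁ A + logHeight₁ B + 2 * logHeight₁ w0 + 3 * logHeight₁ x0, ?_, ?_⟩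
  · have := zero_le_logHeight₁ A
    have := zero_le_logHeight₁ B
    have := zero_le_logHeight₁ w0
    have := zero_le_logHeight₁ x0
    positivity
  · intro X Y h
    have e1 : 2 * logHeight₁ Y = logHeight₁ (X ^ 3 + A * X + B) := by
      rw [← h, logHeight₁_pow]; norm_num
    have h8 := logHeight₁_add_le (X ^ 3 + A * X) B
    have h9 := logHeight₁_add_le (X ^ 3) (A * X)
    have h10 : logHeight₁ (X ^ 3) = 3 * logHeight₁ X := by rw [logHeight₁_pow]; norm_num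
    have h11 := logHeight₁_mul_le A X
    have hs : logHeight₁ (sl x0 w0 X Y) ≤ logHeight₁ (Y - w0) + logHeight₁ (X - x0) :=
      h_div_le _ _
    have h12 := logHeight₁_sub_le Y w0
    have h13 := logHeight₁_sub_le X x0
    unfold aX
    have h14 := logHeight₁_sub_le (sl x0 w0 X Y ^ 2 - X) x0
    have h15 := logHeight₁_sub_le (sl x0 w0 X Y ^ 2) X
    have h16 : logHeight₁ (sl x0 w0 X Y ^ 2) = 2 * logHeight₁ (sl x0 w0 X Y) := by
      rw [logHeight₁_pow]; norm_num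
    linarith

lemma U_height (A B Y0 x0 w0 : K)
    (hc : ∀ n, (sq A B Y0 n).2 ^ 2 = (sq A B Y0 n).1 ^ 3 + A * (sq A B Y0 n).1 + B) :
    ∃ M : ℝ, 0 < M ∧ ∀ n : ℕ, 1 + logHeight₁ (U A B Y0 x0 w0 n) ≤ M * 9 ^ n := by
  obtain ⟨M, hM, h1⟩ := sq_height A B Y0
  obtain ⟨C, hC, h2⟩ := aX_height A B x0 w0
  refine ⟨7 * M + C + 1, by positivity, fun n => ?_⟩
  have h3 := h2 _ _ (hc n)
  have h4 := h1 n
  have h5 : (1 : ℝ) ≤ 9 ^ n := one_le_pow₀ (by norm_num)
  have h6 : logHeight₁ (U A B Y0 x0 w0 n) ≤ 7 * (M * 9 ^ n) + C := by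
    unfold U; linarith
  nlinarith

end

end Pool.Agent.H92.Vojta
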